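import Mathlib

set_option autoImplicit false

/-!
# Thick sandwiches in characteristic 2 (MP_1664c7_al)

If `c` is a thick sandwich of an anticommutative 3-Engel algebra of characteristic 2 (with all
partial linearisations), then every product with `k ≥ 2` factors `c` and at most `2 k - 2` other
factors is zero.
-/

namespace Pool.Agent.H86.Eng2

/-- Anticommutative 3-Engel rings of characteristic two, with the partial linearisations of the
identity `((xy)y)y = 0` (automatic over fields with more than two elements). -/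
structure E2 (A : Type*) [NonUnitalNonAssocRing A] : Prop where
  two : ∀ x : A, x + x = 0
  sq : ∀ x : A, x * x = 0
  eng : ∀ x y : A, ((x * y) * y) * y = 0
  lin : ∀ x a w : A, ((x * a) * a) * w + ((x * a) * w) * a + ((x * w) * a) * a = 0

/-- `W c k m z`: `z` is a product with `k` factors `c` and `m` other factors. -/
inductive W {A : Type*} [Mul A] (c : A) : ℕ → ℕ → A → Prop
  | elt (x : A) : W c 0 1 x
  | gen : W c 1 0 c
  | mul {k m k' m' : ℕ} {x y : A} : W c k m x → W c k' m' y → W c (k + k') (m + m') (x * y)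

section basic
variable {A : Type*} [NonUnitalNonAssocRing A]

theorem E2.neg (hA : E2 A) (x : A) : -x = x := by
  rw [neg_eq_iff_add_eq_zero]; exact hA.two x

theorem E2.eq_of (hA : E2 A) {x y : A} (h : x + y = 0) : x = y := by
  have := eq_neg_of_add_eq_zero_left h
  rw [this, hA.neg]

theorem E2.comm (hA : E2 A) (x y : A) : x * y = y * x := by
  have h := hA.sq (x + y)
  rw [mul_add, add_mul, add_mul, hA.sq x, hA.sq y, zero_add, add_zero] at h
  exact (hA.eq_of h).symm

theorem E2.full (hA : E2 A) (x p q r : A) :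
    ((x * p) * q) * r + ((x * p) * r) * q + ((x * q) * p) * r + ((x * q) * r) * p
      + ((x * r) * p) * q + ((x * r) * q) * p = 0 := by
  have h1 := hA.lin x (p + q) r
  have h2 := hA.lin x p r
  have h3 := hA.lin x q r
  simp only [mul_add, add_mul] at h1
  linear_combination (norm := abel) h1 - h2 - h3

/-- the sandwich conditions -/
structure Thick2 (c : A) : Prop where
  cc : ∀ x : A, (x * c) * c = 0
  cxc : ∀ x y : A, ((x * c) * y) * c = 0
  th : ∀ x y : A, (x * c) * (y * c) = 0

theorem thick2_of (hA : E2 A) {c : A} (h1 : ∀ x : A, (x * c) * c = 0)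
    (h2 : ∀ x y : A, (x * c) * (y * c) = 0) : Thick2 c where
  cc := h1
  th := h2
  cxc := by
    intro x y
    have h := hA.lin x c y
    rw [h1, h1, zero_mul, zero_add, add_zero] at h
    exact h

end basic

section W
variable {A : Type*} [NonUnitalNonAssocRing A] {c : A}

theorem W.zero_pos {k m : ℕ} {z : A} (h : W c k m z) : 1 ≤ k + m := by
  induction h with
  | elt x => omega
  | gen => omega
  | mul _ _ h1 h2 => omega

theorem W.one_zero {k m : ℕ} {z : A} (h : W c k m z) : k = 1 → m = 0 → z = c := by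
  intro hk hm
  cases h with
  | elt x => omega
  | gen => rfl
  | mul h1 h2 =>
    have := h1.zero_pos
    have := h2.zero_pos
    omega

/-- The induction hypothesis below `c`-degree `K`. -/
def IH (c : A) (K : ℕ) : Prop :=
  ∀ k m z, k < K → 2 ≤ k → m + 2 ≤ 2 * k → W c k m z → z = 0

theorem W.dichotomy {K : ℕ} (ih : IH c K) {k m : ℕ} {z : A} (hk : 1 ≤ k) (hK : k < K)
    (h : W c k m z) : z = 0 ∨ (k = 1 ∧ m = 0 ∧ z = c) ∨ 2 * k ≤ m + 1 := by
  rcases Nat.lt_or_ge (m + 1) (2 * k) with h1 | h1
  · rcases Nat.lt_or_ge 1 k with h2 | h2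
    · exact Or.inl (ih k m z hK h2 (by omega) h)
    · exact Or.inr (Or.inl ⟨by omega, by omega, h.one_zero (by omega) (by omega)⟩)
  · exact Or.inr (Or.inr h1)

/-- structure of elements of weight `-1` -/
theorem S1 (hA : E2 A) {K : ℕ} (ih : IH c K) {k m : ℕ} {z : A} (hK : k < K)
    (hm : m + 1 = 2 * k) (h : W c k m z) :
    z = 0 ∨ (∃ k' y, k' + 1 = k ∧ W c k' (2 * k' + 1) y ∧ z = c * y) ∨
      (∃ k1 k2 a b, 1 ≤ k1 ∧ 1 ≤ k2 ∧ k1 + k2 = k ∧ W c k1 (2 * k1 - 1) a ∧ W c k2 (2 * k2) b ∧
        z = a * b) := by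
  cases h with
  | elt x => omega
  | gen => omega
  | @mul k1 m1 k2 m2 x y hx hy =>
    have p1 := hx.zero_pos
    have p2 := hy.zero_pos
    rcases Nat.eq_zero_or_pos k1 with h1 | h1
    · subst h1
      rcases W.dichotomy ih (by omega) (by omega) hy with h2 | ⟨h2, h3, h4⟩ | h2
      · left; rw [h2, mul_zero]
      · right; left
        refine ⟨0, x, by omega, ?_, by rw [h4, hA.comm]⟩
        have : m1 = 1 := by omega
        subst this; simpa using hx
      · omega
    · rcases Nat.eq_zero_or_pos k2 with h2 | h2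
      · subst h2
        rcases W.dichotomy ih (by omega) (by omega) hx with h2 | ⟨h2, h3, h4⟩ | h2
        · left; rw [h2, zero_mul]
        · right; left
          refine ⟨0, y, by omega, ?_, by rw [h4]⟩
          have : m2 = 1 := by omega
          subst this; simpa using hy
        · omega
      · rcases W.dichotomy ih h1 (by omega) hx with h3 | ⟨h3, h4, h5⟩ | h3
        · left; rw [h3, zero_mul]
        · right; left
          refine ⟨k2, y, by omega, ?_, by rw [h5]⟩
          have : m2 = 2 * k2 + 1 := by omega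
          subst this; exact hy
        · rcases W.dichotomy ih h2 (by omega) hy with h6 | ⟨h6, h7, h8⟩ | h6
          · left; rw [h6, mul_zero]
          · right; left
            refine ⟨k1, x, by omega, ?_, by rw [h8, hA.comm]⟩
            have : m1 = 2 * k1 + 1 := by omega
            subst this; exact hx
          · right; right
            rcases (by omega : (m1 = 2 * k1 - 1 ∧ m2 = 2 * k2) ∨ (m1 = 2 * k1 ∧ m2 = 2 * k2 - 1))
              with ⟨e1, e2⟩ | ⟨e1, e2⟩
            · subst e1; subst e2
              exact ⟨k1, k2, x, y, h1, h2, rfl, hx, hy, rfl⟩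
            · subst e1; subst e2
              exact ⟨k2, k1, y, x, h2, h1, by omega, hy, hx, hA.comm _ _⟩

/-- structure of elements of weight `0` -/
theorem S0 (hA : E2 A) {K : ℕ} (ih : IH c K) {k m : ℕ} {z : A} (hk : 1 ≤ k) (hK : k < K)
    (hm : m = 2 * k) (h : W c k m z) :
    z = 0 ∨ (∃ k' t, k' + 1 = k ∧ W c k' (2 * k' + 2) t ∧ z = c * t) ∨
      (∃ k1 k2 a y, 1 ≤ k1 ∧ k1 + k2 = k ∧ W c k1 (2 * k1 - 1) a ∧ W c k2 (2 * k2 + 1) y ∧
        z = a * y) ∨
      (∃ k1 k2 a b, 1 ≤ k1 ∧ 1 ≤ k2 ∧ k1 + k2 = k ∧ W c k1 (2 * k1) a ∧ W c k2 (2 * k2) b ∧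
        z = a * b) := by
  cases h with
  | elt x => omega
  | gen => omega
  | @mul k1 m1 k2 m2 x y hx hy =>
    have p1 := hx.zero_pos
    have p2 := hy.zero_pos
    rcases Nat.eq_zero_or_pos k1 with h1 | h1
    · subst h1
      rcases W.dichotomy ih (by omega) (by omega) hy with h2 | ⟨h2, h3, h4⟩ | h2
      · left; rw [h2, mul_zero]
      · right; left
        refine ⟨0, x, by omega, ?_, by rw [h4, hA.comm]⟩
        have : m1 = 2 := by omega
        subst this; simpa using hx
      · right; right; left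
        have e1 : m1 = 1 := by omega
        have e2 : m2 = 2 * k2 - 1 := by omega
        subst e1; subst e2
        exact ⟨k2, 0, y, x, by omega, by omega, hy, by simpa using hx, hA.comm _ _⟩
    · rcases Nat.eq_zero_or_pos k2 with h2 | h2
      · subst h2
        rcases W.dichotomy ih (by omega) (by omega) hx with h2 | ⟨h2, h3, h4⟩ | h2
        · left; rw [h2, zero_mul]
        · right; left
          refine ⟨0, y, by omega, ?_, by rw [h4]⟩
          have : m2 = 2 := by omega
          subst this; simpa using hy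
        · right; right; left
          have e1 : m2 = 1 := by omega
          have e2 : m1 = 2 * k1 - 1 := by omega
          subst e1; subst e2
          exact ⟨k1, 0, x, y, by omega, by omega, hx, by simpa using hy, rfl⟩
      · rcases W.dichotomy ih h1 (by omega) hx with h3 | ⟨h3, h4, h5⟩ | h3
        · left; rw [h3, zero_mul]
        · right; left
          refine ⟨k2, y, by omega, ?_, by rw [h5]⟩
          have : m2 = 2 * k2 + 2 := by omega
          subst this; exact hy
        · rcases W.dichotomy ih h2 (by omega) hy with h6 | ⟨h6, h7, h8⟩ | h6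
          · left; rw [h6, mul_zero]
          · right; left
            refine ⟨k1, x, by omega, ?_, by rw [h8, hA.comm]⟩
            have : m1 = 2 * k1 + 2 := by omega
            subst this; exact hx
          · right; right
            rcases (by omega : (m1 = 2 * k1 - 1 ∧ m2 = 2 * k2 + 1) ∨ (m1 = 2 * k1 ∧ m2 = 2 * k2) ∨
              (m1 = 2 * k1 + 1 ∧ m2 = 2 * k2 - 1)) with ⟨e1, e2⟩ | ⟨e1, e2⟩ | ⟨e1, e2⟩
            · subst e1; subst e2
              exact Or.inl ⟨k1, k2, x, y, h1, rfl, hx, hy, rfl⟩
            · subst e1; subst e2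
              exact Or.inr ⟨k1, k2, x, y, h1, h2, rfl, hx, hy, rfl⟩
            · subst e1; subst e2
              exact Or.inl ⟨k2, k1, y, x, h2, by omega, hy, hx, hA.comm _ _⟩

section level
variable (hA : E2 A) (hc : Thick2 c) {K : ℕ} (ih : IH c K)
include hA hc ih

omit hA hc in
theorem IH.use {k m : ℕ} {z : A} (h : W c k m z) (h1 : k < K) (h2 : 2 ≤ k)
    (h3 : m + 2 ≤ 2 * k) : z = 0 := ih k m z h1 h2 h3 h

/-- `(w z) c = 0` -/
theorem lev_i1 : ∀ k1 : ℕ, ∀ (k2 : ℕ) (a z : A), 1 ≤ k1 → 1 ≤ k2 → k1 + k2 + 1 = K →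
    W c k1 (2 * k1 - 1) a → W c k2 (2 * k2) z → (a * z) * c = 0 := by
  intro k1
  induction k1 using Nat.strong_induction_on with
  | _ k1 ih1 =>
    intro k2 a z h1 h2 hK ha hz
    rcases S1 hA ih (by omega) (by omega) ha with h | ⟨k', y, hk', hy, rfl⟩ |
      ⟨p, q, w, z0, hp, hq, hpq, hw, hz0, rfl⟩
    · rw [h, zero_mul, zero_mul]
    · rw [hA.comm c y]; exact hc.cxc y z
    · have e := hA.full z0 w z c
      have t1 : (z0 * w) * c = 0 := by
        rw [hA.comm z0 w]
        exact ih.use ((hw.mul hz0).mul W.gen) (by omega) (by omega) (by omega)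
      have t2 : (z0 * z) * c = 0 :=
        ih.use ((hz0.mul hz).mul W.gen) (by omega) (by omega) (by omega)
      have t3 : z0 * c = 0 := ih.use (hz0.mul W.gen) (by omega) (by omega) (by omega)
      have t4 : ((z0 * z) * w) * c = 0 := by
        rw [hA.comm (z0 * z) w]
        refine ih1 p (by omega) (q + k2) w (z0 * z) hp (by omega) (by omega) hw ?_
        have := hz0.mul hz
        rwa [← Nat.mul_add] at this
      rw [t1, t2, t3, t4] at e
      simp only [zero_mul, add_zero] at e
      rw [hA.comm w z0]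
      exact e

/-- `Z_{-1} c = 0` -/
theorem lev_i {k : ℕ} {a : A} (hk : 1 ≤ k) (hK : k + 1 ≤ K) (ha : W c k (2 * k - 1) a) :
    a * c = 0 := by
  rcases Nat.lt_or_ge (k + 1) K with h | h
  · exact ih.use (ha.mul W.gen) h (by omega) (by omega)
  · rcases S1 hA ih (by omega) (by omega) ha with h | ⟨k', y, hk', hy, rfl⟩ |
      ⟨p, q, w, z0, hp, hq, hpq, hw, hz0, rfl⟩
    · rw [h, zero_mul]
    · rw [hA.comm c y]; exact hc.cc y
    · exact lev_i1 hA hc ih p q w z0 hp hq (by omega) hw hz0

/-- `((c y) z) b = 0` -/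
theorem lev_0' {p q r : ℕ} {y z b : A} (hq : 1 ≤ q) (hr : 1 ≤ r) (hK : 1 + p + q + r = K)
    (hy : W c p (2 * p + 1) y) (hz : W c q (2 * q) z) (hb : W c r (2 * r - 1) b) :
    ((c * y) * z) * b = 0 := by
  have e := hA.full c y z b
  have t1 : (c * y) * b = 0 :=
    ih.use ((W.gen.mul hy).mul hb) (by omega) (by omega) (by omega)
  have t2 : c * z = 0 := ih.use (W.gen.mul hz) (by omega) (by omega) (by omega)
  have t3 : c * b = 0 := ih.use (W.gen.mul hb) (by omega) (by omega) (by omega)
  rw [t1, t2, t3] at e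
  simpa only [zero_mul, add_zero] using e

/-- `(w z) b = w (b z)` -/
theorem lev_5 : ∀ kz : ℕ, ∀ (kw kb : ℕ) (w b z : A), 1 ≤ kz → 1 ≤ kw → 1 ≤ kb → kw + kb + kz = K →
    W c kw (2 * kw - 1) w → W c kb (2 * kb - 1) b → W c kz (2 * kz) z →
    (w * z) * b = w * (b * z) := by
  intro kz
  induction kz using Nat.strong_induction_on with
  | _ kz ih1 =>
    intro kw kb w b z h1 h2 h3 hK hw hb hz
    rcases S0 hA ih h1 (by omega) rfl hz with h | ⟨k', t, hk', ht, rfl⟩ |
      ⟨k1, k2, a, y, g1, g2, ha, hy, rfl⟩ | ⟨k1, k2, z1, z2, g1, g2, g3, hz1, hz2, rfl⟩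
    · rw [h]; simp
    · have e := hA.full c t w b
      have t1 : c * w = 0 := ih.use (W.gen.mul hw) (by omega) (by omega) (by omega)
      have t2 : c * b = 0 := ih.use (W.gen.mul hb) (by omega) (by omega) (by omega)
      rw [t1, t2] at e
      simp only [zero_mul, add_zero] at e
      have e' := hA.eq_of e
      rw [hA.comm w, e', hA.comm _ w, hA.comm b]
    · have e := hA.full a y w b
      have t1 : a * w = 0 := ih.use (ha.mul hw) (by omega) (by omega) (by omega)
      have t2 : a * b = 0 := ih.use (ha.mul hb) (by omega) (by omega) (by omega)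
      rw [t1, t2] at e
      simp only [zero_mul, add_zero] at e
      have e' := hA.eq_of e
      rw [hA.comm w, e', hA.comm _ w, hA.comm b]
    · have hwz1 : W c (kw + k1) (2 * (kw + k1) - 1) (w * z1) := by
        have := hw.mul hz1
        have e : 2 * kw - 1 + 2 * k1 = 2 * (kw + k1) - 1 := by omega
        rwa [e] at this
      have hbz2 : W c (kb + k2) (2 * (kb + k2) - 1) (b * z2) := by
        have := hb.mul hz2
        have e : 2 * kb - 1 + 2 * k2 = 2 * (kb + k2) - 1 := by omega
        rwa [e] at this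
      have e1 := ih1 k2 (by omega) (kw + k1) kb (w * z1) b z2 g2 (by omega) h3 (by omega)
        hwz1 hb hz2
      have e2 := ih1 k1 (by omega) kw (kb + k2) w (b * z2) z1 g1 h2 (by omega) (by omega)
        hw hbz2 hz1
      -- E(b; z1, z2, w)
      have e3 := hA.full b z1 z2 w
      have u1 : (b * z1) * w = 0 :=
        ih.use ((hb.mul hz1).mul hw) (by omega) (by omega) (by omega)
      have u2 : (b * z2) * w = 0 :=
        ih.use ((hb.mul hz2).mul hw) (by omega) (by omega) (by omega)
      have u3 : b * w = 0 := ih.use (hb.mul hw) (by omega) (by omega) (by omega)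
      rw [u1, u2, u3] at e3
      simp only [zero_mul, add_zero] at e3
      -- E(z1; z2, w, b)
      have e4 := hA.full z1 z2 w b
      have u4 : (z1 * w) * b = 0 :=
        ih.use ((hz1.mul hw).mul hb) (by omega) (by omega) (by omega)
      have u5 : (z1 * b) * w = 0 :=
        ih.use ((hz1.mul hb).mul hw) (by omega) (by omega) (by omega)
      rw [u4, u5] at e4
      simp only [zero_mul, add_zero] at e4
      rw [hA.comm z1 w, hA.comm z1 b, e1, e2, hA.comm w, hA.comm (z1 * z2) w,
        hA.comm (z1 * z2) b] at e4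
      have e5 : ((w * (z1 * z2)) * b) + ((b * (z1 * z2)) * w) = 0 := by
        have h7 := hA.eq_of (x := ((b * z1) * z2) * w) (y := ((b * z2) * z1) * w) (by
          linear_combination (norm := abel) e3)
        rw [h7] at e4
        have h8 := hA.two (((b * z2) * z1) * w)
        linear_combination (norm := abel) e4 - h8
      rw [hA.eq_of e5, hA.comm]

/-- `Z_{-1} Z_{-1} = 0` -/
theorem lev_iii : ∀ ka : ℕ, ∀ (kb : ℕ) (a b : A), 1 ≤ ka → 1 ≤ kb → ka + kb = K →
    W c ka (2 * ka - 1) a → W c kb (2 * kb - 1) b → a * b = 0 := by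
  intro ka
  induction ka using Nat.strong_induction_on with
  | _ ka ih1 =>
    intro kb a b h1 h2 hK ha hb
    rcases S1 hA ih (by omega) (by omega) ha with h | ⟨k', y, hk', hy, rfl⟩ |
      ⟨p, q, w, z, hp, hq, hpq, hw, hz, rfl⟩
    · rw [h, zero_mul]
    · rcases S1 hA ih (by omega) (by omega) hb with h | ⟨k'', y', hk'', hy', rfl⟩ |
        ⟨p, q, b', z, hp, hq, hpq, hb', hz, rfl⟩
      · rw [h, mul_zero]
      · rw [hA.comm c y, hA.comm c y']; exact hc.th y y'
      · have hcy : W c (1 + k') (2 * (1 + k') - 1) (c * y) := by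
          have := W.gen.mul hy
          have e : 0 + (2 * k' + 1) = 2 * (1 + k') - 1 := by omega
          rwa [e] at this
        rw [← lev_5 hA hc ih q (1 + k') p (c * y) b' z hq (by omega) hp (by omega) hcy hb' hz]
        exact lev_0' hA hc ih hq hp (by omega) hy hz hb'
    · rw [lev_5 hA hc ih q p kb w b z hq hp h2 (by omega) hw hb hz]
      have hbz : W c (kb + q) (2 * (kb + q) - 1) (b * z) := by
        have := hb.mul hz
        have e : 2 * kb - 1 + 2 * q = 2 * (kb + q) - 1 := by omega
        rwa [e] at this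
      exact ih1 p (by omega) (kb + q) w (b * z) hp (by omega) (by omega) hw hbz

/-- `(a y) c = 0` -/
theorem lev_iia : ∀ k1 : ℕ, ∀ (k2 : ℕ) (a y : A), 1 ≤ k1 → k1 + k2 + 1 = K →
    W c k1 (2 * k1 - 1) a → W c k2 (2 * k2 + 1) y → (a * y) * c = 0 := by
  intro k1
  induction k1 using Nat.strong_induction_on with
  | _ k1 ih1 =>
    intro k2 a y h1 hK ha hy
    rcases S1 hA ih (by omega) (by omega) ha with h | ⟨k', y', hk', hy', rfl⟩ |
      ⟨p, q, b, z, hp, hq, hpq, hb, hz, rfl⟩
    · rw [h, zero_mul, zero_mul]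
    · rw [hA.comm c y']; exact hc.cxc y' y
    · have hbz : W c k1 (2 * k1 - 1) (b * z) := ha
      have hyz : W c (k2 + q) (2 * (k2 + q) + 1) (y * z) := by
        have := hy.mul hz
        have e : 2 * k2 + 1 + 2 * q = 2 * (k2 + q) + 1 := by omega
        rwa [e] at this
      have t1 : (b * z) * c = 0 := lev_i hA hc ih h1 (by omega) hbz
      have t2 : b * c = 0 := lev_i hA hc ih hp (by omega) hb
      have t3 : (b * y) * c = 0 :=
        ih.use ((hb.mul hy).mul W.gen) (by omega) (by omega) (by omega)
      have e1 := hA.full b z y c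
      rw [t1, t2, t3] at e1
      simp only [zero_mul, add_zero] at e1
      have e2 := hA.full y b z c
      have t4 : (y * b) * c = 0 := by rw [hA.comm y b]; exact t3
      have t5 : (y * c) * b = 0 :=
        ih.use ((hy.mul W.gen).mul hb) (by omega) (by omega) (by omega)
      have t6 : ((y * c) * z) * b = 0 := by
        rw [hA.comm y c]
        exact lev_0' hA hc ih hq hp (by omega) hy hz hb
      have hyzc : W c (k2 + q + 1) (2 * (k2 + q + 1) - 1) ((y * z) * c) := by
        have := hyz.mul W.gen
        have e : 2 * (k2 + q) + 1 + 0 = 2 * (k2 + q + 1) - 1 := by omega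
        rwa [e] at this
      have t7 : ((y * z) * c) * b = 0 :=
        lev_iii hA hc ih (k2 + q + 1) p _ _ (by omega) hp (by omega) hyzc hb
      rw [t4, t5, t6, t7] at e2
      simp only [zero_mul, add_zero] at e2
      have t8 : ((y * z) * b) * c = 0 := by
        rw [hA.comm (y * z) b]
        exact ih1 p (by omega) (k2 + q) b (y * z) hp (by omega) hb hyz
      rw [t8, add_zero, hA.comm y b] at e2
      rw [e2, add_zero] at e1
      exact e1

/-- `(z₁ z₂) c = 0` -/
theorem lev_iib : ∀ k1 : ℕ, ∀ (k2 : ℕ) (z1 z2 : A), 1 ≤ k1 → 1 ≤ k2 → k1 + k2 + 1 = K →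
    W c k1 (2 * k1) z1 → W c k2 (2 * k2) z2 → (z1 * z2) * c = 0 := by
  intro k1
  induction k1 using Nat.strong_induction_on with
  | _ k1 ih1 =>
    intro k2 z1 z2 h1 h2 hK hz1 hz2
    rcases S0 hA ih h1 (by omega) rfl hz1 with h | ⟨k', t, hk', ht, rfl⟩ |
      ⟨p, q, a, y, g1, g2, ha, hy, rfl⟩ | ⟨p, q, z4, z5, g1, g2, g3, hz4, hz5, rfl⟩
    · rw [h, zero_mul, zero_mul]
    · rw [hA.comm c t]; exact hc.cxc t z2
    · have haz : W c (p + k2) (2 * (p + k2) - 1) (a * z2) := by
        have := ha.mul hz2
        have e : 2 * p - 1 + 2 * k2 = 2 * (p + k2) - 1 := by omega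
        rwa [e] at this
      have e1 := hA.full a y z2 c
      have t1 : (a * y) * c = 0 :=
        ih.use ((ha.mul hy).mul W.gen) (by omega) (by omega) (by omega)
      have t2 : (a * z2) * c = 0 := lev_i hA hc ih (by omega) (by omega) haz
      have t3 : a * c = 0 := lev_i hA hc ih g1 (by omega) ha
      have t4 : ((a * z2) * y) * c = 0 :=
        lev_iia hA hc ih (p + k2) q (a * z2) y (by omega) (by omega) haz hy
      rw [t1, t2, t3, t4] at e1
      simpa only [zero_mul, add_zero] using e1
    · have e1 := hA.full z5 z4 z2 c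
      have t1 : (z5 * z4) * c = 0 :=
        ih.use ((hz5.mul hz4).mul W.gen) (by omega) (by omega) (by omega)
      have t2 : (z5 * z2) * c = 0 :=
        ih.use ((hz5.mul hz2).mul W.gen) (by omega) (by omega) (by omega)
      have t3 : z5 * c = 0 := ih.use (hz5.mul W.gen) (by omega) (by omega) (by omega)
      have hz52 : W c (q + k2) (2 * (q + k2)) (z5 * z2) := by
        have := hz5.mul hz2
        rwa [← Nat.mul_add] at this
      have t4 : ((z5 * z2) * z4) * c = 0 := by
        rw [hA.comm (z5 * z2) z4]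
        exact ih1 p (by omega) (q + k2) z4 (z5 * z2) g1 (by omega) (by omega) hz4 hz52
      rw [t1, t2, t3, t4] at e1
      simp only [zero_mul, add_zero] at e1
      rw [hA.comm z4 z5]
      exact e1

/-- `Z_0 c = 0` -/
theorem lev_ii {k : ℕ} {z : A} (hk : 1 ≤ k) (hK : k + 1 ≤ K) (hz : W c k (2 * k) z) :
    z * c = 0 := by
  rcases Nat.lt_or_ge (k + 1) K with h | h
  · exact ih.use (hz.mul W.gen) h (by omega) (by omega)
  · rcases S0 hA ih hk (by omega) rfl hz with h | ⟨k', t, hk', ht, rfl⟩ |
      ⟨p, q, a, y, g1, g2, ha, hy, rfl⟩ | ⟨p, q, z4, z5, g1, g2, g3, hz4, hz5, rfl⟩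
    · rw [h, zero_mul]
    · rw [hA.comm c t]; exact hc.cc t
    · exact lev_iia hA hc ih p q a y g1 (by omega) ha hy
    · exact lev_iib hA hc ih p q z4 z5 g1 g2 (by omega) hz4 hz5

end level

/-- **Few letters.** If `c` is a thick sandwich in characteristic 2, then every product with
`k ≥ 2` factors `c` and `m ≤ 2 k - 2` other factors vanishes. -/
theorem few_letters (hA : E2 A) (hc : Thick2 c) :
    ∀ K k m z, k = K → 2 ≤ k → m + 2 ≤ 2 * k → W c k m z → z = 0 := by
  intro K
  induction K using Nat.strong_induction_on with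
  | _ K ihK =>
    have ih : IH c K := fun k m z h1 h2 h3 h4 => ihK k h1 k m z rfl h2 h3 h4
    intro k m z hk h2 h3 h
    induction h with
    | elt x => omega
    | gen => omega
    | @mul k1 m1 k2 m2 x y hx hy ihx ihy =>
      have p1 := hx.zero_pos
      have p2 := hy.zero_pos
      rcases Nat.eq_zero_or_pos k1 with h1 | h1
      · subst h1
        rw [ihy (by omega) (by omega) (by omega), mul_zero]
      rcases Nat.eq_zero_or_pos k2 with h4 | h4
      · subst h4
        rw [ihx (by omega) (by omega) (by omega), zero_mul]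
      rcases W.dichotomy ih h1 (by omega) hx with h5 | ⟨h5, h6, h7⟩ | h5
      · rw [h5, zero_mul]
      · rcases W.dichotomy ih h4 (by omega) hy with h8 | ⟨h8, h9, h10⟩ | h8
        · rw [h8, mul_zero]
        · rw [h7, h10, hA.sq]
        · rcases (by omega : m2 = 2 * k2 - 1 ∨ m2 = 2 * k2) with e | e
          · subst e
            rw [h7, hA.comm]; exact lev_i hA hc ih h4 (by omega) hy
          · subst e
            rw [h7, hA.comm]; exact lev_ii hA hc ih h4 (by omega) hy
      · rcases W.dichotomy ih h4 (by omega) hy with h8 | ⟨h8, h9, h10⟩ | h8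
        · rw [h8, mul_zero]
        · rcases (by omega : m1 = 2 * k1 - 1 ∨ m1 = 2 * k1) with e | e
          · subst e
            rw [h10]; exact lev_i hA hc ih h1 (by omega) hx
          · subst e
            rw [h10]; exact lev_ii hA hc ih h1 (by omega) hx
        · have e1 : m1 = 2 * k1 - 1 := by omega
          have e2 : m2 = 2 * k2 - 1 := by omega
          subst e1; subst e2
          exact lev_iii hA hc ih k1 k2 x y h1 h4 hk hx hy

end W

end Pool.Agent.H86.Eng2
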