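import Pool.Agent.H86.Eng2.Weight

set_option autoImplicit false

/-!
# Theorem T: reduction of (A) to C0 (MP_1664c7_al, characteristic two)

In an algebra with the prime property and the injectivity property (INJ), the relations
`uxxc = 0`, `uxyc = uyxc` imply `uxx = 0`.
-/

universe u v

namespace Pool.Agent.H86.Eng2

section tt
variable {G : Type v} [NonUnitalNonAssocRing G]

/-- `wyxv = wyvx` for pairwise annihilating letters. -/
theorem E2.vvv (hG : E2 G) {x y v : G} (hyx : y * x = 0) (hyv : y * v = 0) (w : G) :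
    ((w * y) * x) * v = ((w * y) * v) * x := by
  have h := hG.full y w x v
  have hx : y * x = 0 := hyx
  rw [hG.comm y w, hyx, hyv] at h
  simp only [zero_mul, add_zero] at h
  exact hG.eq_of (by linear_combination (norm := abel) h)

/-- `gyxx = 0`. -/
theorem E2.yxx (hG : E2 G) {x y : G} (hxy : x * y = 0) (g : G) :
    ((g * y) * x) * x = 0 := by
  have h := hG.lin g x y
  have h2 := hG.vvv (x := x) (y := x) (v := y) (hG.sq x) hxy g
  rw [h2, hG.two, zero_add] at h
  exact h

variable {F : Type u} [Field F] [Module F G] [IsScalarTower F G G] [SMulCommClass F G G]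

/-- The set of `d` with `dx = 0` and `dwx = 0` for all `w`. -/
def TT (F : Type u) [Field F] [Module F G] [IsScalarTower F G G] [SMulCommClass F G G] (x : G) :
    Submodule F G where
  carrier := {d | d * x = 0 ∧ ∀ w, (d * w) * x = 0}
  add_mem' := by
    rintro a b ⟨h1, h2⟩ ⟨h3, h4⟩
    refine ⟨by rw [add_mul, h1, h3, add_zero], fun w => ?_⟩
    rw [add_mul, add_mul, h2, h4, add_zero]
  zero_mem' := by
    refine ⟨by rw [zero_mul], fun w => by rw [zero_mul, zero_mul]⟩
  smul_mem' := by
    rintro r a ⟨h1, h2⟩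
    refine ⟨by rw [smul_mul_assoc, h1, smul_zero], fun w => ?_⟩
    rw [smul_mul_assoc, smul_mul_assoc, h2, smul_zero]

theorem mem_TT {x d : G} : d ∈ TT F x ↔ d * x = 0 ∧ ∀ w, (d * w) * x = 0 := Iff.rfl

/-- Theorem T. -/
theorem TT_zero (hG : E2 G) {c : G} (hc : Thick2 c) {V : Submodule F G}
    (hVV : ∀ x ∈ V, ∀ y ∈ V, x * y = 0)
    (hgen : ∀ S : Submodule F G, (∀ a ∈ S, ∀ b ∈ S, a * b ∈ S) → c ∈ S → V ≤ S → S = ⊤)
    (hC0 : ∀ u : G, ∀ x ∈ V, ∀ y ∈ V, ((u * x) * y) * c = ((u * y) * x) * c)
    (prime : ∀ a : Submodule F G, (∀ i ∈ a, ∀ g : G, i * g ∈ a) → a ≠ ⊥ →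
      ∀ g : G, (∀ i ∈ a, i * g = 0) → g = 0)
    (inj : ∀ U : Submodule F G, (∀ u ∈ U, ∀ x ∈ V, u * x ∈ U) → (∀ u ∈ U, u * c = 0) → U = ⊥)
    {x : G} (hx : x ∈ V) (hx0 : x ≠ 0) : TT F x = ⊥ := by
  -- T^d(a,b) = dabx
  have sym : ∀ d ∈ TT F x, ∀ a b : G, ((d * a) * b) * x = ((d * b) * a) * x := by
    intro d hd a b
    obtain ⟨h1, h2⟩ := mem_TT.mp hd
    have h := hG.full d a b x
    rw [h2 a, h2 b, h1] at h
    simp only [zero_mul, add_zero] at h
    exact hG.eq_of (by linear_combination (norm := abel) h)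
  have hxx : ∀ y ∈ V, y * x = 0 := fun y hy => hVV y hy x hx
  have hxx' : ∀ y ∈ V, x * y = 0 := fun y hy => hVV x hx y hy
  have kill : ∀ d ∈ TT F x, ∀ w : G, (w * d) * x = 0 := by
    intro d hd w
    rw [hG.comm w d]; exact (mem_TT.mp hd).2 w
  have T1 : ∀ d ∈ TT F x, ∀ y ∈ V, ∀ w : G, ((d * y) * w) * x = d * ((w * y) * x) := by
    intro d hd y hy w
    obtain ⟨h1, h2⟩ := mem_TT.mp hd
    have h := hG.full y d w x
    rw [hG.comm y d, h2 y, hxx y hy, hG.comm y w, kill d hd (w * y)] at h
    simp only [zero_mul, add_zero] at h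
    rw [hG.comm ((w * y) * x) d] at h
    exact hG.eq_of (by linear_combination (norm := abel) h)
  have T2 : ∀ d ∈ TT F x, ∀ y ∈ V, ∀ v ∈ V, ∀ w : G,
      (((d * y) * w) * x) * v = ((d * v) * (w * y)) * x := by
    intro d hd y hy v hv w
    rw [T1 d hd y hy, T1 d hd v hv]
    have hxd : x * d = 0 := by rw [hG.comm]; exact (mem_TT.mp hd).1
    have h := hG.full x d (w * y) v
    rw [hxd, hxx' v hv] at h
    simp only [zero_mul, add_zero, zero_add] at h
    have h3 : (d * ((w * y) * x)) * v = d * (((w * y) * x) * v) := by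
      rw [hG.comm x (w * y), hG.comm ((w * y) * x) d, hG.comm (((w * y) * x) * v) d] at h
      exact hG.eq_of (by linear_combination (norm := abel) h)
    rw [h3, hG.vvv (hVV y hy x hx) (hVV y hy v hv)]
  have T3 : ∀ d ∈ TT F x, ∀ y ∈ V, ∀ w : G, (((d * y) * w) * x) * c = 0 := by
    intro d hd y hy w
    rw [sym d hd, hC0 (d * w) y hy x hx, (mem_TT.mp hd).2 w, zero_mul, zero_mul]
  -- first injectivity
  have Z1 : ∀ d ∈ TT F x, ∀ y ∈ V, ∀ w : G, ((d * y) * w) * x = 0 := by
    have hU := inj (Submodule.span F {z | ∃ d ∈ TT F x, ∃ y ∈ V, ∃ w : G,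
      z = ((d * y) * w) * x}) ?_ ?_
    · intro d hd y hy w
      have : ((d * y) * w) * x ∈ Submodule.span F {z | ∃ d ∈ TT F x, ∃ y ∈ V, ∃ w : G,
        z = ((d * y) * w) * x} := Submodule.subset_span ⟨d, hd, y, hy, w, rfl⟩
      rw [hU] at this
      simpa using this
    · intro z hz v hv
      induction hz using Submodule.span_induction with
      | mem z hz =>
        obtain ⟨d, hd, y, hy, w, rfl⟩ := hz
        rw [T2 d hd y hy v hv]
        exact Submodule.subset_span ⟨d, hd, v, hv, w * y, rfl⟩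
      | zero => rw [zero_mul]; exact Submodule.zero_mem _
      | add a b _ _ h1 h2 => rw [add_mul]; exact Submodule.add_mem _ h1 h2
      | smul r a _ h1 => rw [smul_mul_assoc]; exact Submodule.smul_mem _ r h1
    · intro z hz
      induction hz using Submodule.span_induction with
      | mem z hz =>
        obtain ⟨d, hd, y, hy, w, rfl⟩ := hz
        exact T3 d hd y hy w
      | zero => rw [zero_mul]
      | add a b _ _ h1 h2 => rw [add_mul, h1, h2, add_zero]
      | smul r a _ h1 => rw [smul_mul_assoc, h1, smul_zero]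
  have Z1' : ∀ d ∈ TT F x, ∀ y ∈ V, ∀ w : G, ((d * w) * y) * x = 0 := by
    intro d hd y hy w
    rw [sym d hd]; exact Z1 d hd y hy w
  have T4 : ∀ d ∈ TT F x, ∀ w : G, (((d * c) * w) * x) * c = 0 := by
    intro d hd w
    have h := hG.full (d * c) w x c
    rw [hc.cxc, hc.cxc, hc.cc] at h
    simp only [zero_mul, add_zero] at h
    have h1 : ((d * c) * x) = 0 := (mem_TT.mp hd).2 c
    rw [h1, zero_mul, zero_mul, add_zero] at h
    exact h
  have T5 : ∀ d ∈ TT F x, ∀ y ∈ V, ∀ g : G,
      ((d * (g * y)) * c) * x = (((d * g) * c) * x) * y := by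
    intro d hd y hy g
    have hf := hG.full g d y c
    have hf' := congrArg (fun t => t * x) hf
    simp only [add_mul, zero_mul] at hf'
    rw [hG.comm g d, kill d hd, kill d hd, hG.comm (g * y) d, hG.comm (g * c) d,
      Z1' d hd y hy (g * c)] at hf'
    have hg := hG.full (d * g) y c x
    have e1 : (d * g) * x = 0 := (mem_TT.mp hd).2 g
    rw [e1, Z1' d hd y hy g] at hg
    simp only [zero_mul, add_zero] at hg hf'
    refine hG.eq_of ?_
    have h2 := hG.two ((((d * g) * y) * c) * x)
    have h3 := hG.two ((((d * g) * c) * y) * x)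
    linear_combination (norm := abel) hf' + hg - h2 - h3
  have Zc : ∀ d ∈ TT F x, ∀ g : G, ((d * g) * c) * x = 0 := by
    have hU := inj (Submodule.span F {z | ∃ d ∈ TT F x, ∃ g : G, z = ((d * g) * c) * x}) ?_ ?_
    · intro d hd g
      have : ((d * g) * c) * x ∈ Submodule.span F {z | ∃ d ∈ TT F x, ∃ g : G,
        z = ((d * g) * c) * x} := Submodule.subset_span ⟨d, hd, g, rfl⟩
      rw [hU] at this
      simpa using this
    · intro z hz v hv
      induction hz using Submodule.span_induction with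
      | mem z hz =>
        obtain ⟨d, hd, g, rfl⟩ := hz
        rw [← T5 d hd v hv]
        exact Submodule.subset_span ⟨d, hd, g * v, rfl⟩
      | zero => rw [zero_mul]; exact Submodule.zero_mem _
      | add a b _ _ h1 h2 => rw [add_mul]; exact Submodule.add_mem _ h1 h2
      | smul r a _ h1 => rw [smul_mul_assoc]; exact Submodule.smul_mem _ r h1
    · intro z hz
      induction hz using Submodule.span_induction with
      | mem z hz =>
        obtain ⟨d, hd, g, rfl⟩ := hz
        rw [sym d hd]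
        exact T4 d hd g
      | zero => rw [zero_mul]
      | add a b _ _ h1 h2 => rw [add_mul, h1, h2, add_zero]
      | smul r a _ h1 => rw [smul_mul_assoc, h1, smul_zero]
  -- the stabiliser of `TT`
  let S : Submodule F G :=
    { carrier := {b | ∀ d ∈ TT F x, d * b ∈ TT F x}
      add_mem' := by
        intro a b ha hb d hd
        rw [mul_add]; exact Submodule.add_mem _ (ha d hd) (hb d hd)
      zero_mem' := by
        intro d _; rw [mul_zero]; exact Submodule.zero_mem _
      smul_mem' := by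
        intro r a ha d hd
        rw [mul_smul_comm]; exact Submodule.smul_mem _ r (ha d hd) }
  have hS : ∀ b, b ∈ S ↔ ∀ d ∈ TT F x, d * b ∈ TT F x := fun b => Iff.rfl
  have hSiff : ∀ b, (∀ d ∈ TT F x, ∀ w : G, ((d * b) * w) * x = 0) → b ∈ S := by
    intro b hb
    rw [hS]
    intro d hd
    exact mem_TT.mpr ⟨(mem_TT.mp hd).2 b, hb d hd⟩
  have hSS : ∀ a ∈ S, ∀ b ∈ S, a * b ∈ S := by
    intro b1 hb1 b2 hb2
    apply hSiff
    intro d hd p
    have hf := hG.full b1 d b2 p
    have hf' := congrArg (fun t => t * x) hf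
    simp only [add_mul, zero_mul] at hf'
    have g1 : (((b1 * d) * b2) * p) * x = 0 := by
      rw [hG.comm b1 d]
      exact (mem_TT.mp (((hS b2).mp hb2) _ (((hS b1).mp hb1) d hd))).2 p
    have g2 : (((b1 * d) * p) * b2) * x = 0 := by
      rw [hG.comm b1 d, sym _ (((hS b1).mp hb1) d hd)]
      exact (mem_TT.mp (((hS b2).mp hb2) _ (((hS b1).mp hb1) d hd))).2 p
    have g3 : (((b1 * b2) * p) * d) * x = 0 := kill d hd _
    have g4 : (((b1 * p) * d) * b2) * x = 0 := by
      rw [hG.comm (b1 * p) d, sym d hd]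
      exact (mem_TT.mp (((hS b2).mp hb2) d hd)).2 _
    have g5 : (((b1 * p) * b2) * d) * x = 0 := kill d hd _
    rw [g1, g2, g3, g4, g5, hG.comm (b1 * b2) d] at hf'
    simp only [add_zero, zero_add] at hf'
    exact hf'
  have hcS : c ∈ S := by
    apply hSiff
    intro d hd w
    rw [sym d hd]; exact Zc d hd w
  have hVS : V ≤ S := by
    intro y hy
    apply hSiff
    intro d hd w
    exact Z1 d hd y hy w
  have htop := hgen S hSS hcS hVS
  by_contra hne
  refine hx0 (prime (TT F x) ?_ hne x ?_)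
  · intro d hd g
    have : g ∈ S := by rw [htop]; trivial
    exact (hS g).mp this d hd
  · intro d hd
    exact (mem_TT.mp hd).1

omit [IsScalarTower F G G] [SMulCommClass F G G] in
/-- A linear image of `G` which is killed by the letters and by `c` is zero. -/
theorem kill_zero {c : G} {V : Submodule F G}
    (inj : ∀ U : Submodule F G, (∀ u ∈ U, ∀ x ∈ V, u * x ∈ U) → (∀ u ∈ U, u * c = 0) → U = ⊥)
    (f : G →ₗ[F] G) (h1 : ∀ u : G, ∀ x ∈ V, f u * x = 0) (h2 : ∀ u : G, f u * c = 0) (u : G) :
    f u = 0 := by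
  have hU := inj (Submodule.map f ⊤) ?_ ?_
  · have : f u ∈ Submodule.map f (⊤ : Submodule F G) := ⟨u, trivial, rfl⟩
    rw [hU] at this
    simpa using this
  · rintro _ ⟨u, -, rfl⟩ y hy
    rw [h1 u y hy]
    exact Submodule.zero_mem _
  · rintro _ ⟨u, -, rfl⟩
    exact h2 u

/-- (A) from C0. -/
theorem uxx_zero (hG : E2 G) {c : G} (hc : Thick2 c) {V : Submodule F G}
    (hVV : ∀ x ∈ V, ∀ y ∈ V, x * y = 0)
    (hgen : ∀ S : Submodule F G, (∀ a ∈ S, ∀ b ∈ S, a * b ∈ S) → c ∈ S → V ≤ S → S = ⊤)
    (hC0 : ∀ u : G, ∀ x ∈ V, ∀ y ∈ V, ((u * x) * y) * c = ((u * y) * x) * c)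
    (prime : ∀ a : Submodule F G, (∀ i ∈ a, ∀ g : G, i * g ∈ a) → a ≠ ⊥ →
      ∀ g : G, (∀ i ∈ a, i * g = 0) → g = 0)
    (inj : ∀ U : Submodule F G, (∀ u ∈ U, ∀ x ∈ V, u * x ∈ U) → (∀ u ∈ U, u * c = 0) → U = ⊥)
    {x : G} (hx : x ∈ V) (u : G) : (u * x) * x = 0 := by
  -- step 1
  have key : ∀ x ∈ V, ∀ u : G, ∀ y ∈ V, ((u * x) * x) * y = 0 := by
    intro x hx u y hy
    by_cases hx0 : x = 0
    · rw [hx0, mul_zero, zero_mul]
    have hT := TT_zero hG hc hVV hgen hC0 prime inj hx hx0
    have hxy := hVV x hx y hy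
    have hyx := hVV y hy x hx
    have hz : ((u * x) * x) * y ∈ TT F x := by
      have h1 : (((u * x) * x) * y) * x = 0 := by
        rw [hG.vvv (hG.sq x) hxy, hG.yxx hxy (u * x)]
      refine mem_TT.mpr ⟨h1, fun w => ?_⟩
      have hb : ((w * y) * x) * x = 0 := hG.yxx hxy w
      have h2 := hG.full y ((u * x) * x) w x
      rw [hyx, hG.comm y ((u * x) * x), h1, hG.comm y w] at h2
      simp only [zero_mul, add_zero] at h2
      generalize hbdef : w * y = b at *
      have e1 : (u * (b * x)) * x = ((b * u) * x) * x := by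
        have := hG.lin b x u
        rw [hb, zero_mul, zero_add, hG.comm (b * x) u] at this
        exact hG.eq_of this
      have e2 := hG.lin u x (b * x)
      rw [e1, hG.eng, add_zero] at e2
      have e3 : ((u * x) * x) * (b * x) = ((u * x) * (b * x)) * x := hG.eq_of e2
      have e4 := congrArg (fun t => t * x) (hG.lin u x b)
      simp only [add_mul, zero_mul] at e4
      rw [hG.eng, add_zero] at e4
      have e5 : (((u * x) * x) * b) * x = (((u * x) * b) * x) * x := hG.eq_of e4
      have e6 := hG.lin b x (u * x)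
      rw [hb, zero_mul, zero_add] at e6
      have e7 : ((b * x) * (u * x)) * x = ((b * (u * x)) * x) * x := hG.eq_of e6
      rw [hG.comm b ((u * x) * x), e5, hG.comm (u * x) b, ← e7, hG.comm (b * x) ((u * x) * x), e3,
        hG.comm (u * x) (b * x), add_assoc, hG.two, add_zero] at h2
      exact h2
    rw [hT] at hz
    simpa using hz
  -- step 2: the letters commute
  have comm2 : ∀ x ∈ V, ∀ y ∈ V, ∀ u : G, (u * x) * y = (u * y) * x := by
    intro x hx y hy u
    refine hG.eq_of ?_
    refine kill_zero inj (LinearMap.mulRight F y ∘ₗ LinearMap.mulRight F x +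
      LinearMap.mulRight F x ∘ₗ LinearMap.mulRight F y) ?_ ?_ u
    · intro u z hz
      change ((u * x) * y + (u * y) * x) * z = 0
      have h := key (x + y) (Submodule.add_mem _ hx hy) u z hz
      have h1 := key x hx u z hz
      have h2 := key y hy u z hz
      simp only [mul_add, add_mul] at h ⊢
      linear_combination (norm := abel) h - h1 - h2
    · intro u
      change ((u * x) * y + (u * y) * x) * c = 0
      rw [add_mul, hC0 u x hx y hy, hG.two]
  -- step 3
  have cxx : ∀ x ∈ V, ∀ u : G, ((u * c) * x) * x = 0 := by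
    intro x hx u
    refine kill_zero inj (LinearMap.mulRight F x ∘ₗ LinearMap.mulRight F x ∘ₗ
      LinearMap.mulRight F c) ?_ ?_ u
    · intro u z hz
      exact key x hx (u * c) z hz
    · intro u
      change (((u * c) * x) * x) * c = 0
      have h := hG.lin (u * c) x c
      rw [hc.cxc, hc.cc] at h
      simp only [zero_mul, add_zero] at h
      exact h
  -- step 4
  have xxc : ∀ x ∈ V, ∀ u : G, ((u * x) * x) * c = ((u * x) * c) * x := by
    intro x hx u
    have h := hG.lin u x c
    rw [cxx x hx, add_zero] at h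
    exact hG.eq_of h
  have xcy : ∀ x ∈ V, ∀ y ∈ V, ∀ u : G, ((u * x) * c) * y = ((u * y) * c) * x := by
    intro x hx y hy u
    have h := xxc (x + y) (Submodule.add_mem _ hx hy) u
    have h1 := xxc x hx u
    have h2 := xxc y hy u
    have h3 := comm2 x hx y hy u
    simp only [mul_add, add_mul] at h
    rw [h3, h1, h2] at h
    have h4 := hG.two (((u * y) * x) * c)
    refine hG.eq_of ?_
    have h5 : ((u * x) * c) * y + ((u * y) * c) * x
        = (((u * x) * c) * x + ((u * x) * c) * y + (((u * y) * c) * x + ((u * y) * c) * y))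
          - (((u * x) * c) * x + ((u * y) * x) * c + (((u * y) * x) * c + ((u * y) * c) * y))
          + (((u * y) * x) * c + ((u * y) * x) * c) := by abel
    rw [h5, h4, add_zero]
    rw [sub_eq_zero]
    linear_combination (norm := abel) -h
  -- step 5
  have xxc0 : ∀ x ∈ V, ∀ u : G, ((u * x) * x) * c = 0 := by
    intro x hx u
    refine kill_zero inj (LinearMap.mulRight F c ∘ₗ LinearMap.mulRight F x ∘ₗ
      LinearMap.mulRight F x) ?_ ?_ u
    · intro u y hy
      change (((u * x) * x) * c) * y = 0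
      rw [xxc x hx, comm2 x hx y hy, xcy x hx y hy, cxx x hx]
    · intro u
      exact hc.cc _
  refine kill_zero inj (LinearMap.mulRight F x ∘ₗ LinearMap.mulRight F x) ?_ ?_ u
  · intro u y hy
    exact key x hx u y hy
  · intro u
    exact xxc0 x hx u

end tt

end Pool.Agent.H86.Eng2
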