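import Pool.Agent.H66.Eng2.QJ
import Pool.Agent.H86.Eng2.TT

set_option autoImplicit false

/-!
# The injectivity property (MP_1664c7_al, characteristic two)

If a subspace `U` is stable under the letters and killed by the thick sandwich `c`, then the
ideal generated by `U` is killed by `c`.
-/

universe u v

namespace Pool.Agent.H86.Eng2

open Pool.Agent.H66.Eng Pool.Agent.H66.Eng2

/-- Monomials of the ideal generated by `U`. -/
inductive IM {G : Type*} [Mul G] (X U : Set G) : ℕ → G → Prop
  | base {u : G} (hu : u ∈ U) : IM X U 1 u
  | mul {n k : ℕ} {m g : G} : IM X U n m → Mon X k g → IM X U (n + k) (m * g)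

section inj
variable {G : Type v} [NonUnitalNonAssocRing G]

theorem IM.pos {X U : Set G} {n : ℕ} {m : G} (h : IM X U n m) : 1 ≤ n := by
  induction h with
  | base _ => exact le_rfl
  | mul _ _ h => omega

theorem monL_nil {X : Set G} : MonL X ([] : List (ℕ × G)) := by
  intro p hp
  simp at hp

theorem monL_append {X : Set G} {l l' : List (ℕ × G)} (h : MonL X l) (h' : MonL X l') :
    MonL X (l ++ l') := by
  intro p hp
  rcases List.mem_append.mp hp with hp | hp
  · exact h p hp
  · exact h' p hp

theorem monL_cons {X : Set G} {p : ℕ × G} {l : List (ℕ × G)} (h : Mon X p.1 p.2)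
    (h' : MonL X l) : MonL X (p :: l) := by
  intro q hq
  rcases List.mem_cons.mp hq with rfl | hq
  · exact h
  · exact h' q hq

theorem mon_act {X : Set G} {l : List (ℕ × G)} (hl : MonL X l) :
    ∀ {n : ℕ} {z : G}, Mon X n z → Mon X (n + wt l) (act z l) := by
  induction l with
  | nil => intro n z h; simpa [wt, act_nil] using h
  | cons p l ih =>
    intro n z h
    rw [act_cons, wt_cons]
    have h1 : Mon X p.1 p.2 := hl p (by simp)
    have h2 := ih (fun q hq => hl q (by simp [hq])) (h.mul h1)
    have e : n + (p.1 + wt l) = n + p.1 + wt l := by omega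
    rw [e]; exact h2

omit [NonUnitalNonAssocRing G] in
theorem wt_nil' : wt ([] : List (ℕ × G)) = 0 := by simp [wt]

/-- shape of monomials -/
theorem mon_shape (hG : E2 G) {c : G} {Y : Set G} (hYY : ∀ x ∈ Y, ∀ y ∈ Y, x * y = 0)
    {k : ℕ} {g : G} (h : Mon (insert c Y) k g) :
    g = 0 ∨ g = c ∨ g ∈ Y ∨
      ∃ b w p, Mon (insert c Y) b w ∧ MonL (insert c Y) p ∧ b + 1 + wt p ≤ k ∧
        g = act (w * c) p := by
  induction h with
  | gen hx =>
    rename_i x
    rcases Set.mem_insert_iff.mp hx with rfl | hx
    · exact Or.inr (Or.inl rfl)
    · exact Or.inr (Or.inr (Or.inl hx))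
  | mul h1 h2 ih1 ih2 =>
    rename_i m n x y
    have p1 := h1.pos
    have p2 := h2.pos
    rcases ih1 with rfl | rfl | hx | ⟨b, w, p, hw, hp, hk, rfl⟩
    · left; rw [zero_mul]
    · right; right; right
      refine ⟨n, y, [], h2, monL_nil, ?_, ?_⟩
      · rw [wt_nil']; omega
      · rw [act_nil, hG.comm]
    · rcases ih2 with rfl | rfl | hy | ⟨b, w, p, hw, hp, hk, rfl⟩
      · left; rw [mul_zero]
      · right; right; right
        refine ⟨m, x, [], h1, monL_nil, ?_, ?_⟩
        · rw [wt_nil']; omega
        · rw [act_nil]
      · left; exact hYY x hx y hy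
      · right; right; right
        refine ⟨b, w, p ++ [(m, x)], hw, monL_append hp (monL_cons h1 monL_nil), ?_, ?_⟩
        · rw [wt_append, wt_cons, wt_nil']
          change b + 1 + (wt p + (m + 0)) ≤ m + n
          omega
        · rw [act_append, act_cons, act_nil, hG.comm]
    · right; right; right
      refine ⟨b, w, p ++ [(n, y)], hw, monL_append hp (monL_cons h2 monL_nil), ?_, ?_⟩
      · rw [wt_append, wt_cons, wt_nil']
        change b + 1 + (wt p + (n + 0)) ≤ m + n
        omega
      · rw [act_append, act_cons, act_nil]

/-- (A1) -/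
theorem im_c (hG : E2 G) {c : G} (hc : Thick2 c) {Y : Set G}
    (hYY : ∀ x ∈ Y, ∀ y ∈ Y, x * y = 0) {U : Set G} (hUY : ∀ u ∈ U, ∀ y ∈ Y, u * y ∈ U)
    (hUc : ∀ u ∈ U, u * c = 0) :
    ∀ N m, IM (insert c Y) U N m → m * c = 0 := by
  intro N
  induction N using Nat.strong_induction_on with
  | _ N ih =>
  set X : Set G := insert c Y with hX
  -- the word claim
  have claim : ∀ k : ℕ, ∀ (p q : List (ℕ × G)) (w m' : G) (b a : ℕ),
      p.length + q.length ≤ k → MonL X p → MonL X q → Mon X b w → IM X U a m' →
      a + b + 1 + wt p + wt q ≤ N → act (act (w * c) p * m') q * c = 0 := by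
    intro k
    induction k with
    | zero =>
      intro p q w m' b a hk hp hq hw hm hN
      have e1 : p = [] := List.eq_nil_of_length_eq_zero (by omega)
      have e2 : q = [] := List.eq_nil_of_length_eq_zero (by omega)
      subst e1 e2
      rw [act_nil, act_nil]
      exact hc.cxc w m'
    | succ k ihk =>
      -- the case of one letter on the right
      have one : ∀ (p : List (ℕ × G)) (z : ℕ × G) (w m' : G) (b a : ℕ),
          p.length + 1 ≤ k + 1 → MonL X p → Mon X z.1 z.2 → Mon X b w → IM X U a m' →
          a + b + 1 + wt p + z.1 ≤ N → ((act (w * c) p * m') * z.2) * c = 0 := by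
        intro p z w m' b a hk hp hz hw hm hN
        have pz := hz.pos
        have pb := hw.pos
        have hcX : Mon X 1 c := Mon.gen (Set.mem_insert _ _)
        have hr : Mon X (b + 1 + wt p) (act (w * c) p) := mon_act hp (hw.mul hcX)
        have h := hG.full m' (act (w * c) p) z.2 c
        rw [ih (a + (b + 1 + wt p)) (by omega) _ (hm.mul hr), ih (a + z.1) (by omega) _ (hm.mul hz),
          ih a (by omega) _ hm] at h
        simp only [zero_mul, add_zero] at h
        have h2 := ihk p [] w (m' * z.2) b (a + z.1) (by simp; omega) hp monL_nil hw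
          (hm.mul hz) (by rw [wt_nil']; omega)
        rw [act_nil, hG.comm] at h2
        rw [hG.comm (act (w * c) p) m']
        have h3 := hG.eq_of h
        rw [h3, hG.comm ((m' * z.2)) (act (w * c) p), hG.comm, h2]
      -- the exchange
      have exch : ∀ (p q : List (ℕ × G)) (z : ℕ × G) (w m' : G) (b a : ℕ),
          p.length + q.length + 1 ≤ k + 1 → MonL X p → MonL X q → Mon X z.1 z.2 →
          Mon X b w → IM X U a m' → a + b + 1 + wt p + wt q + z.1 ≤ N →
          (act ((act (w * c) p * m') * z.2) q * c = 0 ↔
            act ((act (w * c) p * z.2) * m') q * c = 0) := by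
        intro p q z w m' b a hk hp hq hz hw hm hN
        have pz := hz.pos
        have pb := hw.pos
        have hcX : Mon X 1 c := Mon.gen (Set.mem_insert _ _)
        suffices h : act ((act (w * c) p * m') * z.2) q * c
            + act ((act (w * c) p * z.2) * m') q * c = 0 by
          rw [hG.eq_of h]
        rcases List.eq_nil_or_concat p with rfl | ⟨p', y, rfl⟩
        · rw [act_nil]
          have h := hG.full w c m' z.2
          have i1 : (w * m') * c = 0 := by
            rw [hG.comm w m']
            exact ih (a + b) (by rw [wt_nil'] at hN; omega) _ (hm.mul hw)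
          have i2 : ((w * m') * z.2) * c = 0 := by
            rw [hG.comm w m']
            exact ih (a + b + z.1) (by rw [wt_nil'] at hN; omega) _ ((hm.mul hw).mul hz)
          have i3 : ((w * z.2) * m') * c = 0 := by
            rw [hG.comm (w * z.2) m']
            exact ih (a + (b + z.1)) (by rw [wt_nil'] at hN; omega) _ (hm.mul (hw.mul hz))
          rw [i1, i2, i3, zero_mul, add_zero, add_zero, add_zero] at h
          have h4 := ihk [] q (w * z.2) m' (b + z.1) a (by simp at hk ⊢; omega) monL_nil hq
            (hw.mul hz) hm (by rw [wt_nil'] at hN ⊢; omega)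
          rw [act_nil] at h4
          have h5 : ((w * c) * m') * z.2 + ((w * c) * z.2) * m' = ((w * z.2) * c) * m' :=
            hG.eq_of h
          rw [← add_mul, ← act_add, h5]
          exact h4
        · rw [List.concat_eq_append, act_append, act_cons, act_nil]
          rw [List.concat_eq_append] at hp hN hk
          rw [wt_append, wt_cons, wt_nil'] at hN
          rw [List.length_append, List.length_cons, List.length_nil] at hk
          have hy : Mon X y.1 y.2 := hp y (by simp)
          have hp' : MonL X p' := fun t ht => hp t (by simp [ht])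
          have py := hy.pos
          set r := act (w * c) p' with hr
          have h := hG.full y.2 r m' z.2
          -- y r m z + y r z m + y m r z + y m z r + y z r m + y z m r
          have g1 : act ((r * (y.2 * m')) * z.2) q * c = 0 := by
            have := ihk p' (z :: q) w (m' * y.2) b (a + y.1)
              (by rw [List.length_cons]; omega) hp' (monL_cons hz hq) hw (hm.mul hy)
              (by rw [wt_cons]; omega)
            rw [act_cons, ← hr, hG.comm m' y.2] at this
            exact this
          have g2 : act (r * ((y.2 * m') * z.2)) q * c = 0 := by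
            have := ihk p' q w (m' * y.2 * z.2) b (a + y.1 + z.1)
              (by omega) hp' hq hw ((hm.mul hy).mul hz) (by omega)
            rw [← hr, hG.comm m' y.2] at this
            exact this
          have g3 : act ((r * (y.2 * z.2)) * m') q * c = 0 := by
            have := ihk (p' ++ [(y.1 + z.1, y.2 * z.2)]) q w m' b a
              (by rw [List.length_append, List.length_cons, List.length_nil]; omega)
              (monL_append hp' (monL_cons (hy.mul hz) monL_nil)) hq hw hm
              (by rw [wt_append, wt_cons, wt_nil']
                  change a + b + 1 + (wt p' + (y.1 + z.1 + 0)) + wt q ≤ N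
                  omega)
            rw [act_append, act_cons, act_nil, ← hr] at this
            exact this
          have g4 : act (r * ((y.2 * z.2) * m')) q * c = 0 := by
            have := ihk p' q w (m' * (y.2 * z.2)) b (a + (y.1 + z.1))
              (by omega) hp' hq hw (hm.mul (hy.mul hz)) (by omega)
            rw [← hr, hG.comm m' (y.2 * z.2)] at this
            exact this
          have e : ((r * y.2) * m') * z.2 + ((r * y.2) * z.2) * m'
              = ((r * (y.2 * m')) * z.2 + r * ((y.2 * m') * z.2))
                + ((r * (y.2 * z.2)) * m' + r * ((y.2 * z.2) * m')) := by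
            apply hG.eq_of
            rw [hG.comm r y.2, hG.comm r (y.2 * m'), hG.comm r ((y.2 * m') * z.2),
              hG.comm r (y.2 * z.2), hG.comm r ((y.2 * z.2) * m')]
            linear_combination (norm := abel) h
          rw [← add_mul, ← act_add, e, act_add, act_add, act_add, add_mul, add_mul, add_mul,
            g1, g2, g3, g4]
          simp
      -- all positions
      have main : ∀ (q p : List (ℕ × G)) (w m' : G) (b a : ℕ),
          p.length + q.length ≤ k + 1 → MonL X p → MonL X q → Mon X b w → IM X U a m' →
          a + b + 1 + wt p + wt q ≤ N → q ≠ [] → act (act (w * c) p * m') q * c = 0 := by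
        intro q
        induction q with
        | nil => intro p w m' b a _ _ _ _ _ _ h; exact absurd rfl h
        | cons z q ihq =>
          intro p w m' b a hk hp hq hw hm hN _
          have hz : Mon X z.1 z.2 := hq z (by simp)
          have hq' : MonL X q := fun t ht => hq t (by simp [ht])
          rw [List.length_cons] at hk
          rw [wt_cons] at hN
          rcases q with _ | ⟨z', q'⟩
          · rw [act_cons, act_nil]
            rw [wt_nil'] at hN
            rw [List.length_nil] at hk
            exact one p z w m' b a (by omega) hp hz hw hm (by omega)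
          · rw [act_cons]
            rw [exch p (z' :: q') z w m' b a (by omega) hp hq' hz hw hm (by omega)]
            have := ihq (p ++ [z]) w m' b a
              (by rw [List.length_append, List.length_cons (a := z), List.length_nil]; omega)
              (monL_append hp (monL_cons hz monL_nil)) hq' hw hm
              (by rw [wt_append, wt_cons, wt_nil']; omega) (by simp)
            rw [act_append (w * c) p [z], act_cons (act (w * c) p) z [], act_nil] at this
            exact this
      intro p q w m' b a hk hp hq hw hm hN
      rcases q with _ | ⟨z, q⟩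
      · rcases List.eq_nil_or_concat p with rfl | ⟨p', y, rfl⟩
        · rw [act_nil, act_nil]
          exact hc.cxc w m'
        · rw [List.concat_eq_append] at hp hN hk ⊢
          rw [List.length_append, List.length_cons, List.length_nil] at hk
          rw [wt_append, wt_cons, wt_nil'] at hN
          have hy : Mon X y.1 y.2 := hp y (by simp)
          have hp' : MonL X p' := fun t ht => hp t (by simp [ht])
          rw [act_append, act_cons, act_nil, act_nil]
          have h1 := exch p' [] y w m' b a (by rw [List.length_nil]; omega) hp' monL_nil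
            hy hw hm (by rw [wt_nil']; omega)
          rw [act_nil, act_nil] at h1
          rw [← h1]
          exact one p' y w m' b a (by omega) hp' hy hw hm (by omega)
      · exact main (z :: q) p w m' b a hk hp hq hw hm hN (by simp)
  -- shape of elements of the ideal
  have shape : ∀ n m, IM X U n m → n ≤ N → m = 0 ∨ m ∈ U ∨ m * c = 0 ∧ n = N ∨
      ∃ (p q : List (ℕ × G)) (w m' : G) (b a : ℕ), MonL X p ∧ MonL X q ∧ Mon X b w ∧
        IM X U a m' ∧ a + b + 1 + wt p + wt q ≤ n ∧ m = act (act (w * c) p * m') q := by
    intro n m hm
    induction hm with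
    | base hu => intro _; exact Or.inr (Or.inl hu)
    | mul hm hg ihm =>
      rename_i n k m g
      intro hn
      have pg := hg.pos
      have hmc : m * c = 0 := ih n (by omega) m hm
      rcases mon_shape hG hYY hg with rfl | rfl | hgY | ⟨b, w, p, hw, hp, hk, rfl⟩
      · left; rw [mul_zero]
      · left; exact hmc
      · rcases ihm (by omega) with rfl | hmU | ⟨_, h⟩ | ⟨p, q, w, m', b, a, hp, hq, hw, hm', hw', rfl⟩
        · left; rw [zero_mul]
        · right; left; exact hUY m hmU g hgY
        · omega
        · right; right; right
          refine ⟨p, q ++ [(k, g)], w, m', b, a, hp, monL_append hq (monL_cons hg monL_nil), hw,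
            hm', ?_, ?_⟩
          · rw [wt_append, wt_cons, wt_nil']
            change a + b + 1 + wt p + (wt q + (k + 0)) ≤ n + k
            omega
          · rw [act_append, act_cons, act_nil]
      · right; right; right
        refine ⟨p, [], w, m, b, n, hp, monL_nil, hw, hm, ?_, ?_⟩
        · rw [wt_nil']; omega
        · rw [act_nil, hG.comm]
  intro m hm
  rcases shape N m hm le_rfl with rfl | hmU | ⟨h, _⟩ | ⟨p, q, w, m', b, a, hp, hq, hw, hm', hw', rfl⟩
  · rw [zero_mul]
  · exact hUc m hmU
  · exact h
  · exact claim (p.length + q.length) p q w m' b a le_rfl hp hq hw hm' hw'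

variable {F : Type u} [Field F] [Module F G] [IsScalarTower F G G] [SMulCommClass F G G]

/-- The ideal generated by `U` as the span of its monomials. -/
def Iid (F : Type u) [Field F] [Module F G] (X U : Set G) : Submodule F G :=
  Submodule.span F {m | ∃ n, IM X U n m}

theorem Iid_ideal {X U : Set G} (hX : mspan F X 1 = ⊤) :
    ∀ i ∈ Iid F X U, ∀ g : G, i * g ∈ Iid F X U := by
  intro i hi g
  have hg : g ∈ mspan F X 1 := by rw [hX]; trivial
  refine span_mul_mem (S := {m | ∃ n, IM X U n m}) (T := {w | ∃ m, 1 ≤ m ∧ Mon X m w})
    ?_ i hi g hg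
  rintro m ⟨n, hm⟩ w ⟨k, _, hw⟩
  exact Submodule.subset_span ⟨n + k, hm.mul hw⟩

/-- The injectivity property. -/
theorem inj_of (hG : E2 G) {c : G} (hc : Thick2 c) {Y : Set G}
    (hYY : ∀ x ∈ Y, ∀ y ∈ Y, x * y = 0) (hX : mspan F (insert c Y) 1 = ⊤)
    (hc0 : c ≠ 0)
    (prime : ∀ a : Submodule F G, (∀ i ∈ a, ∀ g : G, i * g ∈ a) → a ≠ ⊥ →
      ∀ g : G, (∀ i ∈ a, i * g = 0) → g = 0)
    (U : Submodule F G) (hUV : ∀ u ∈ U, ∀ x ∈ Submodule.span F Y, u * x ∈ U)
    (hUc : ∀ u ∈ U, u * c = 0) : U = ⊥ := by
  by_contra hne
  refine hc0 (prime (Iid F (insert c Y) U) (Iid_ideal hX) ?_ c ?_)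
  · intro h
    apply hne
    rw [eq_bot_iff]
    intro u hu
    have : u ∈ Iid F (insert c Y) (U : Set G) := Submodule.subset_span ⟨1, IM.base hu⟩
    rw [h] at this
    exact this
  · intro i hi
    have hc1 := im_c hG hc hYY (U := (U : Set G))
      (fun u hu y hy => hUV u hu y (Submodule.subset_span hy)) hUc
    induction hi using Submodule.span_induction with
    | mem m hm =>
      obtain ⟨n, hm⟩ := hm
      exact hc1 n m hm
    | zero => rw [zero_mul]
    | add a b _ _ h1 h2 => rw [add_mul, h1, h2, add_zero]
    | smul r a _ h1 => rw [smul_mul_assoc, h1, smul_zero]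

end inj

end Pool.Agent.H86.Eng2
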