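import Pool.Agent.H86.Eng2.Inj

set_option autoImplicit false

/-!
# A combinatorial lemma on symmetric functions of five words (MP_1664c7_al, characteristic two)
-/

universe v

namespace Pool.Agent.H86.Eng2

open Pool.Agent.H66.Eng Pool.Agent.H66.Eng2

/-- product of weighted elements -/
def pm {G : Type*} [Mul G] (p q : ℕ × G) : ℕ × G := (p.1 + q.1, p.2 * q.2)

/-- Symmetric functions of five monomials with a cyclic relation. -/
structure Five {G : Type*} [NonUnitalNonAssocRing G] (c : G) (Y : Set G) (M : ℕ)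
    (g : List (ℕ × G) → G) : Prop where
  sw : ∀ l1 p q l2, (l1 ++ p :: q :: l2).length = 5 → MonL (insert c Y) (l1 ++ p :: q :: l2) →
    wt (l1 ++ p :: q :: l2) ≤ M → g (l1 ++ p :: q :: l2) = g (l1 ++ q :: p :: l2)
  cyc : ∀ x a b d e f : ℕ × G, MonL (insert c Y) [x, a, b, d, e, f] →
    wt [x, a, b, d, e, f] ≤ M →
    g [x, a, pm b d, e, f] + g [x, a, pm e f, b, d] + g [x, a, pm b e, d, f]
      + g [x, a, pm d f, b, e] = 0
  zc : ∀ (x a b d : ℕ × G) (n : ℕ), g [x, a, b, d, (n, c)] = 0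
  z0 : ∀ (x a b d : ℕ × G) (n : ℕ), g [x, a, (n, 0), b, d] = 0
  zY : ∀ (b : ℕ × G) (y1 y2 y3 y4 : G), y1 ∈ Y → y2 ∈ Y → y3 ∈ Y → y4 ∈ Y →
    g [b, (1, y1), (1, y2), (1, y3), (1, y4)] = 0

section
variable {G : Type v} [NonUnitalNonAssocRing G] {c : G} {Y : Set G} {M : ℕ}
  {g : List (ℕ × G) → G}

omit [NonUnitalNonAssocRing G] in
theorem wt_perm {l l' : List (ℕ × G)} (h : l.Perm l') : wt l = wt l' := by
  unfold wt
  exact (h.map _).sum_eq

theorem monL_perm {X : Set G} {l l' : List (ℕ × G)} (h : l.Perm l') (hl : MonL X l) :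
    MonL X l' := fun p hp => hl p (h.mem_iff.mpr hp)

theorem Five.perm (hF : Five c Y M g) {l l' : List (ℕ × G)} (h : l.Perm l') :
    ∀ pre : List (ℕ × G), (pre ++ l).length = 5 → MonL (insert c Y) (pre ++ l) →
      wt (pre ++ l) ≤ M → g (pre ++ l) = g (pre ++ l') := by
  induction h with
  | nil => intros; rfl
  | cons a _ ih =>
    intro pre h1 h2 h3
    have := ih (pre ++ [a]) (by simpa using h1) (by simpa using h2) (by simpa using h3)
    simpa using this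
  | swap a b l =>
    intro pre h1 h2 h3
    exact hF.sw pre b a l h1 h2 h3
  | trans h1 h2 ih1 ih2 =>
    rename_i l₁ l₂ l₃
    intro pre g1 g2 g3
    rw [ih1 pre g1 g2 g3]
    have hp : (pre ++ l₁).Perm (pre ++ l₂) := h1.append_left pre
    refine ih2 pre ?_ (monL_perm hp g2) ?_
    · rw [← hp.length_eq]; exact g1
    · rw [← wt_perm hp]; exact g3

theorem Five.perm' (hF : Five c Y M g) {l l' : List (ℕ × G)} (h : l.Perm l')
    (h1 : l.length = 5) (h2 : MonL (insert c Y) l) (h3 : wt l ≤ M) : g l = g l' :=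
  hF.perm h [] h1 h2 h3

theorem Five.zero_perm (hF : Five c Y M g) {l l' : List (ℕ × G)} (h : l'.Perm l)
    (h1 : l.length = 5) (h2 : MonL (insert c Y) l) (h3 : wt l ≤ M) (h0 : g l = 0) :
    g l' = 0 := by
  rw [← hF.perm' h.symm h1 h2 h3, h0]

omit [NonUnitalNonAssocRing G] in
/-- weight of an explicit list -/
theorem wt5 (a b d e f : ℕ × G) : wt [a, b, d, e, f] = a.1 + b.1 + d.1 + e.1 + f.1 := by
  simp [wt]; omega

omit [NonUnitalNonAssocRing G] in
theorem wt6 (a b d e f h : ℕ × G) :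
    wt [a, b, d, e, f, h] = a.1 + b.1 + d.1 + e.1 + f.1 + h.1 := by
  simp [wt]; omega

theorem monL5 {X : Set G} {a b d e f : ℕ × G} (ha : Mon X a.1 a.2) (hb : Mon X b.1 b.2)
    (hd : Mon X d.1 d.2) (he : Mon X e.1 e.2) (hf : Mon X f.1 f.2) :
    MonL X [a, b, d, e, f] :=
  monL_cons ha (monL_cons hb (monL_cons hd (monL_cons he (monL_cons hf monL_nil))))

theorem monL6 {X : Set G} {a b d e f h : ℕ × G} (ha : Mon X a.1 a.2) (hb : Mon X b.1 b.2)
    (hd : Mon X d.1 d.2) (he : Mon X e.1 e.2) (hf : Mon X f.1 f.2) (hh : Mon X h.1 h.2) :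
    MonL X [a, b, d, e, f, h] :=
  monL_cons ha (monL5 hb hd he hf hh)

/-- closure lemma -/
theorem Five.closure (hF : Five c Y M g) {u v : ℕ × G} (hu : Mon (insert c Y) u.1 u.2)
    (hv : Mon (insert c Y) v.1 v.2)
    (base : ∀ y ∈ Y, ∀ d e : ℕ × G, Mon (insert c Y) d.1 d.2 → Mon (insert c Y) e.1 e.2 →
      wt [u, v, (1, y), d, e] ≤ M → g [u, v, (1, y), d, e] = 0)
    {i : ℕ} {b : G} (hb : Mon (insert c Y) i b) :
    ∀ d e : ℕ × G, Mon (insert c Y) d.1 d.2 → Mon (insert c Y) e.1 e.2 →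
      wt [u, v, (i, b), d, e] ≤ M → g [u, v, (i, b), d, e] = 0 := by
  induction hb with
  | gen hx =>
    rename_i x
    intro d e hd he hw
    rcases Set.mem_insert_iff.mp hx with rfl | hx
    · have hcM : Mon (insert x Y) 1 x := Mon.gen (Set.mem_insert _ _)
      have hp : [u, v, (1, x), d, e].Perm [u, v, d, e, (1, x)] :=
        (((List.Perm.swap _ _ _).trans ((List.Perm.swap _ _ _).cons _)).cons _).cons _
      rw [hF.perm' hp rfl (monL5 hu hv hcM hd he) hw]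
      exact hF.zc _ _ _ _ _
    · exact base x hx d e hd he hw
  | mul h1 h2 ih1 ih2 =>
    rename_i m n b1 b2
    intro d e hd he hw
    rw [wt5] at hw
    have hw' : u.1 + v.1 + (m + n) + d.1 + e.1 ≤ M := hw
    have hde : Mon (insert c Y) (pm d e).1 (pm d e).2 := hd.mul he
    have h1d : Mon (insert c Y) (pm (m, b1) d).1 (pm (m, b1) d).2 := h1.mul hd
    have h2e : Mon (insert c Y) (pm (n, b2) e).1 (pm (n, b2) e).2 := h2.mul he
    have hc := hF.cyc u v (m, b1) (n, b2) d e (monL6 hu hv h1 h2 hd he)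
      (by rw [wt6]; change u.1 + v.1 + m + n + d.1 + e.1 ≤ M; omega)
    have t1 : g [u, v, pm d e, (m, b1), (n, b2)] = 0 := by
      refine hF.zero_perm (l := [u, v, (m, b1), pm d e, (n, b2)])
        (((List.Perm.swap _ _ _).cons _).cons _) rfl (monL5 hu hv h1 hde h2) ?_
        (ih1 (pm d e) (n, b2) hde h2 ?_)
      · rw [wt5]; change u.1 + v.1 + m + (d.1 + e.1) + n ≤ M; omega
      · rw [wt5]; change u.1 + v.1 + m + (d.1 + e.1) + n ≤ M; omega
    have t2 : g [u, v, pm (m, b1) d, (n, b2), e] = 0 := by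
      refine hF.zero_perm (l := [u, v, (n, b2), pm (m, b1) d, e])
        (((List.Perm.swap _ _ _).cons _).cons _) rfl (monL5 hu hv h2 h1d he) ?_
        (ih2 (pm (m, b1) d) e h1d he ?_)
      · rw [wt5]; change u.1 + v.1 + n + (m + d.1) + e.1 ≤ M; omega
      · rw [wt5]; change u.1 + v.1 + n + (m + d.1) + e.1 ≤ M; omega
    have t3 : g [u, v, pm (n, b2) e, (m, b1), d] = 0 := by
      refine hF.zero_perm (l := [u, v, (m, b1), pm (n, b2) e, d])
        (((List.Perm.swap _ _ _).cons _).cons _) rfl (monL5 hu hv h1 h2e hd) ?_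
        (ih1 (pm (n, b2) e) d h2e hd ?_)
      · rw [wt5]; change u.1 + v.1 + m + (n + e.1) + d.1 ≤ M; omega
      · rw [wt5]; change u.1 + v.1 + m + (n + e.1) + d.1 ≤ M; omega
    rw [t1, t2, t3] at hc
    change g [u, v, pm (m, b1) (n, b2), d, e] = 0
    simpa using hc

/-- stage 3 -/
theorem Five.stage3 (hF : Five c Y M g) (h2 : ∀ x : G, x + x = 0)
    (hYY : ∀ x ∈ Y, ∀ y ∈ Y, x * y = 0)
    {i : ℕ} {b : G} (hb : Mon (insert c Y) i b) :
    ∀ y1 ∈ Y, ∀ y2 ∈ Y, ∀ y3 ∈ Y, ∀ e : ℕ × G, Mon (insert c Y) e.1 e.2 →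
      wt [(1, y3), e, (i, b), (1, y1), (1, y2)] ≤ M →
      g [(1, y3), e, (i, b), (1, y1), (1, y2)] = 0 := by
  have hY : ∀ y ∈ Y, Mon (insert c Y) 1 y := fun y hy => Mon.gen (Set.mem_insert_of_mem _ hy)
  induction hb with
  | gen hx =>
    rename_i x
    intro y1 hy1 y2 hy2 y3 hy3 e he hw
    rcases Set.mem_insert_iff.mp hx with rfl | hx
    · have hcM : Mon (insert x Y) 1 x := Mon.gen (Set.mem_insert _ _)
      have hp : [(1, y3), e, (1, x), (1, y1), (1, y2)].Perm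
          [(1, y3), e, (1, y1), (1, y2), (1, x)] :=
        (((List.Perm.swap _ _ _).trans ((List.Perm.swap _ _ _).cons _)).cons _).cons _
      rw [hF.perm' hp rfl (monL5 (hY _ hy3) he hcM (hY _ hy1) (hY _ hy2)) hw]
      exact hF.zc _ _ _ _ _
    · have hp : [(1, y3), e, (1, x), (1, y1), (1, y2)].Perm
          [e, (1, y3), (1, x), (1, y1), (1, y2)] := List.Perm.swap _ _ _
      rw [hF.perm' hp rfl (monL5 (hY _ hy3) he (hY _ hx) (hY _ hy1) (hY _ hy2)) hw]
      exact hF.zY _ _ _ _ _ hy3 hx hy1 hy2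
  | mul h1 h2' ih1 ih2 =>
    rename_i m n b1 b2
    intro y1 hy1 y2 hy2 y3 hy3 e he hw
    rw [wt5] at hw
    have hw' : 1 + e.1 + (m + n) + 1 + 1 ≤ M := hw
    set x1 : ℕ × G := (1, y1) with hx1
    set x2 : ℕ × G := (1, y2) with hx2
    set x3 : ℕ × G := (1, y3) with hx3
    set p1 : ℕ × G := (m, b1) with hp1
    set p2 : ℕ × G := (n, b2) with hp2
    have m1 : Mon (insert c Y) x1.1 x1.2 := hY _ hy1
    have m2 : Mon (insert c Y) x2.1 x2.2 := hY _ hy2
    have m3 : Mon (insert c Y) x3.1 x3.2 := hY _ hy3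
    have k1 : Mon (insert c Y) p1.1 p1.2 := h1
    have k2 : Mon (insert c Y) p2.1 p2.2 := h2'
    have z12 : ∀ a b d e, g [a, b, pm x1 x2, d, e] = 0 := by
      intro a b d e
      have : pm x1 x2 = (1 + 1, 0) := by
        unfold pm; rw [hx1, hx2, hYY y1 hy1 y2 hy2]
      rw [this]; exact hF.z0 _ _ _ _ _
    have z23 : ∀ a b d e, g [a, b, pm x2 x3, d, e] = 0 := by
      intro a b d e
      have : pm x2 x3 = (1 + 1, 0) := by
        unfold pm; rw [hx2, hx3, hYY y2 hy2 y3 hy3]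
      rw [this]; exact hF.z0 _ _ _ _ _
    have z13 : ∀ a b d e, g [a, b, pm x1 x3, d, e] = 0 := by
      intro a b d e
      have : pm x1 x3 = (1 + 1, 0) := by
        unfold pm; rw [hx1, hx3, hYY y1 hy1 y3 hy3]
      rw [this]; exact hF.z0 _ _ _ _ _
    -- (1)
    have c1 := hF.cyc x3 e p1 p2 x1 x2 (monL6 m3 he k1 k2 m1 m2)
      (by rw [wt6]; change 1 + e.1 + m + n + 1 + 1 ≤ M; omega)
    rw [z12, add_zero] at c1
    -- (2)
    have c2 := hF.cyc x3 p2 p1 x1 e x2 (monL6 m3 k2 k1 m1 he m2)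
      (by rw [wt6]; change 1 + n + m + 1 + e.1 + 1 ≤ M; omega)
    have k1e : Mon (insert c Y) (pm p1 e).1 (pm p1 e).2 := k1.mul he
    have k2e : Mon (insert c Y) (pm p2 e).1 (pm p2 e).2 := k2.mul he
    have d2 : g [x3, p2, pm p1 e, x1, x2] = 0 := by
      refine hF.zero_perm (l := [x3, pm p1 e, p2, x1, x2]) ((List.Perm.swap _ _ _).cons _) rfl
        (monL5 m3 k1e k2 m1 m2) ?_ (ih2 y1 hy1 y2 hy2 y3 hy3 (pm p1 e) k1e ?_)
      · rw [wt5]; change 1 + (m + e.1) + n + 1 + 1 ≤ M; omega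
      · rw [wt5]; change 1 + (m + e.1) + n + 1 + 1 ≤ M; omega
    rw [d2, z12, add_zero, add_zero] at c2
    -- (3)
    have c3 := hF.cyc x3 p1 p2 x2 e x1 (monL6 m3 k1 k2 m2 he m1)
      (by rw [wt6]; change 1 + m + n + 1 + e.1 + 1 ≤ M; omega)
    have d3 : g [x3, p1, pm p2 e, x2, x1] = 0 := by
      refine hF.zero_perm (l := [x3, pm p2 e, p1, x1, x2]) ?_ rfl
        (monL5 m3 k2e k1 m1 m2) ?_ (ih1 y1 hy1 y2 hy2 y3 hy3 (pm p2 e) k2e ?_)
      · exact ((List.Perm.swap _ _ _).trans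
          (((List.Perm.swap _ _ _).cons _).cons _)).cons _
      · rw [wt5]; change 1 + (n + e.1) + m + 1 + 1 ≤ M; omega
      · rw [wt5]; change 1 + (n + e.1) + m + 1 + 1 ≤ M; omega
    have z21 : ∀ a b d e, g [a, b, pm x2 x1, d, e] = 0 := by
      intro a b d e
      have : pm x2 x1 = (1 + 1, 0) := by
        unfold pm; rw [hx2, hx1, hYY y2 hy2 y1 hy1]
      rw [this]; exact hF.z0 _ _ _ _ _
    rw [d3, z21, add_zero, add_zero] at c3
    -- (4)
    have c4 := hF.cyc p1 p2 e x1 x2 x3 (monL6 k1 k2 he m1 m2 m3)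
      (by rw [wt6]; change m + n + e.1 + 1 + 1 + 1 ≤ M; omega)
    rw [z23, z13, add_zero, add_zero] at c4
    -- c1 : g [x3, e, p1p2, x1, x2] + g [x3, e, p1x1, p2, x2] + g [x3, e, p2x2, p1, x1] = 0
    have k11 : Mon (insert c Y) (pm p1 x1).1 (pm p1 x1).2 := k1.mul m1
    have k22 : Mon (insert c Y) (pm p2 x2).1 (pm p2 x2).2 := k2.mul m2
    have ke1 : Mon (insert c Y) (pm e x1).1 (pm e x1).2 := he.mul m1
    have ke2 : Mon (insert c Y) (pm e x2).1 (pm e x2).2 := he.mul m2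
    have e1 : g [x3, e, pm p1 x1, p2, x2] = g [x3, p2, pm p1 x1, e, x2] := by
      refine hF.perm' ?_ rfl (monL5 m3 he k11 k2 m2) ?_
      · exact ((List.Perm.swap _ _ _).trans (((List.Perm.swap _ _ _).cons _).trans
          (List.Perm.swap _ _ _))).cons _
      · rw [wt5]; change 1 + e.1 + (m + 1) + n + 1 ≤ M; omega
    have e2 : g [x3, e, pm p2 x2, p1, x1] = g [x3, p1, pm p2 x2, e, x1] := by
      refine hF.perm' ?_ rfl (monL5 m3 he k22 k1 m1) ?_
      · exact ((List.Perm.swap _ _ _).trans (((List.Perm.swap _ _ _).cons _).trans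
          (List.Perm.swap _ _ _))).cons _
      · rw [wt5]; change 1 + e.1 + (n + 1) + m + 1 ≤ M; omega
    have e3 : g [x3, p2, pm e x2, p1, x1] = g [p1, p2, pm e x2, x1, x3] := by
      refine hF.perm' ?_ rfl (monL5 m3 k2 ke2 k1 m1) ?_
      · -- move p1 to front, x3 to the end
        have a1 : [x3, p2, pm e x2, p1, x1].Perm (p1 :: [x3, p2, pm e x2, x1]) :=
          List.perm_middle (l₁ := [x3, p2, pm e x2]) (a := p1) (l₂ := [x1])
        refine a1.trans (List.Perm.cons _ ?_)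
        exact (List.perm_middle (l₁ := [p2, pm e x2, x1]) (a := x3) (l₂ := [])).symm
      · rw [wt5]; change 1 + n + (e.1 + 1) + m + 1 ≤ M; omega
    have e4 : g [x3, p1, pm e x1, p2, x2] = g [p1, p2, pm e x1, x2, x3] := by
      refine hF.perm' ?_ rfl (monL5 m3 k1 ke1 k2 m2) ?_
      · have a1 : [x3, p1, pm e x1, p2, x2].Perm (p1 :: p2 :: [x3, pm e x1, x2]) := by
          refine (List.Perm.swap _ _ _).trans (List.Perm.cons _ ?_)
          exact List.perm_middle (l₁ := [x3, pm e x1]) (a := p2) (l₂ := [x2])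
        refine a1.trans (List.Perm.cons _ (List.Perm.cons _ ?_))
        exact (List.perm_middle (l₁ := [pm e x1, x2]) (a := x3) (l₂ := [])).symm
      · rw [wt5]; change 1 + m + (e.1 + 1) + n + 1 ≤ M; omega
    rw [e3] at c2
    rw [e4] at c3
    rw [e1, e2] at c1
    change g [x3, e, pm p1 p2, x1, x2] = 0
    have hs : g [x3, e, pm p1 p2, x1, x2] =
        (g [x3, e, pm p1 p2, x1, x2] + g [x3, p2, pm p1 x1, e, x2]
          + g [x3, p1, pm p2 x2, e, x1])
        + (g [x3, p2, pm p1 x1, e, x2] + g [p1, p2, pm e x2, x1, x3])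
        + (g [x3, p1, pm p2 x2, e, x1] + g [p1, p2, pm e x1, x2, x3])
        + (g [p1, p2, pm e x1, x2, x3] + g [p1, p2, pm e x2, x1, x3])
        - (g [x3, p2, pm p1 x1, e, x2] + g [x3, p2, pm p1 x1, e, x2])
        - (g [x3, p1, pm p2 x2, e, x1] + g [x3, p1, pm p2 x2, e, x1])
        - (g [p1, p2, pm e x2, x1, x3] + g [p1, p2, pm e x2, x1, x3])
        - (g [p1, p2, pm e x1, x2, x3] + g [p1, p2, pm e x1, x2, x3]) := by abel
    rw [hs, c1, c2, c3, c4]
    simp only [h2]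
    simp

/-- conclusion -/
theorem Five.zero (hF : Five c Y M g) (h2 : ∀ x : G, x + x = 0)
    (hYY : ∀ x ∈ Y, ∀ y ∈ Y, x * y = 0) {a b d e f : ℕ × G}
    (ha : Mon (insert c Y) a.1 a.2) (hb : Mon (insert c Y) b.1 b.2)
    (hd : Mon (insert c Y) d.1 d.2) (he : Mon (insert c Y) e.1 e.2)
    (hf : Mon (insert c Y) f.1 f.2) (hw : wt [a, b, d, e, f] ≤ M) :
    g [a, b, d, e, f] = 0 := by
  have hY : ∀ y ∈ Y, Mon (insert c Y) 1 y := fun y hy => Mon.gen (Set.mem_insert_of_mem _ hy)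
  -- stage 2
  have s2 : ∀ y1 ∈ Y, ∀ y2 ∈ Y, ∀ b d e : ℕ × G, Mon (insert c Y) b.1 b.2 →
      Mon (insert c Y) d.1 d.2 → Mon (insert c Y) e.1 e.2 →
      wt [(1, y1), (1, y2), b, d, e] ≤ M → g [(1, y1), (1, y2), b, d, e] = 0 := by
    intro y1 hy1 y2 hy2 b d e hb hd he hw
    refine hF.closure (hY _ hy1) (hY _ hy2) ?_ hb d e hd he hw
    intro y hy d e hd he hw
    rw [wt5] at hw
    have hw' : 1 + 1 + 1 + d.1 + e.1 ≤ M := hw
    refine hF.zero_perm (l := [(1, y1), e, d, (1, y2), (1, y)]) ?_ rfl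
      (monL5 (hY _ hy1) he hd (hY _ hy2) (hY _ hy)) ?_ (hF.stage3 h2 hYY hd y2 hy2 y hy y1 hy1 e he ?_)
    · refine List.Perm.cons _ ?_
      have a1 : [(1, y2), (1, y), d, e].Perm (e :: [(1, y2), (1, y), d]) :=
        List.perm_middle (l₁ := [(1, y2), (1, y), d]) (a := e) (l₂ := [])
      refine a1.trans (List.Perm.cons _ ?_)
      exact List.perm_middle (l₁ := [(1, y2), (1, y)]) (a := d) (l₂ := [])
    · rw [wt5]; change 1 + e.1 + d.1 + 1 + 1 ≤ M; omega
    · rw [wt5]; change 1 + e.1 + d.1 + 1 + 1 ≤ M; omega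
  -- stage 1
  have s1 : ∀ y1 ∈ Y, ∀ a b d e : ℕ × G, Mon (insert c Y) a.1 a.2 → Mon (insert c Y) b.1 b.2 →
      Mon (insert c Y) d.1 d.2 → Mon (insert c Y) e.1 e.2 →
      wt [(1, y1), a, b, d, e] ≤ M → g [(1, y1), a, b, d, e] = 0 := by
    intro y1 hy1 a b d e ha hb hd he hw
    refine hF.closure (hY _ hy1) ha ?_ hb d e hd he hw
    intro y hy d e hd he hw
    rw [wt5] at hw
    have hw' : 1 + a.1 + 1 + d.1 + e.1 ≤ M := hw
    refine hF.zero_perm (l := [(1, y1), (1, y), a, d, e]) ((List.Perm.swap _ _ _).cons _) rfl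
      (monL5 (hY _ hy1) (hY _ hy) ha hd he) ?_ (s2 y1 hy1 y hy a d e ha hd he ?_)
    · rw [wt5]; change 1 + 1 + a.1 + d.1 + e.1 ≤ M; omega
    · rw [wt5]; change 1 + 1 + a.1 + d.1 + e.1 ≤ M; omega
  -- stage 0
  refine hF.closure ha hb ?_ hd e f he hf hw
  intro y hy d e hd he hw
  rw [wt5] at hw
  have hw' : a.1 + b.1 + 1 + d.1 + e.1 ≤ M := hw
  refine hF.zero_perm (l := [(1, y), a, b, d, e]) ?_ rfl (monL5 (hY _ hy) ha hb hd he) ?_
    (s1 y hy a b d e ha hb hd he ?_)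
  · exact List.perm_middle (l₁ := [a, b]) (a := (1, y)) (l₂ := [d, e])
  · rw [wt5]; change 1 + a.1 + b.1 + d.1 + e.1 ≤ M; omega
  · rw [wt5]; change 1 + a.1 + b.1 + d.1 + e.1 ≤ M; omega

end

end Pool.Agent.H86.Eng2
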