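import Pool.Agent.H86.Eng2.Leaf
import Pool.Agent.H86.Eng2.Five

set_option autoImplicit false

/-!
# Jacobians are killed by a thick sandwich (MP_1664c7_al, characteristic two)
-/

universe u v

namespace Pool.Agent.H86.Eng2

open Pool.Agent.H66.Eng Pool.Agent.H66.Eng2

section jac
variable {G : Type v} [NonUnitalNonAssocRing G]

theorem J3_12 (hG : E2 G) (a b d : G) : J3 a b d = J3 b a d := by
  unfold J3
  rw [hG.comm b a, hG.comm a d, hG.comm d b]
  abel

theorem J3_23 (hG : E2 G) (a b d : G) : J3 a b d = J3 a d b := by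
  unfold J3
  rw [hG.comm a d, hG.comm d b, hG.comm b a]
  abel

theorem J3_13 (hG : E2 G) (a b d : G) : J3 a b d = J3 d b a := by
  rw [J3_12 hG, J3_23 hG, J3_12 hG]

theorem J3_add (a a' b d : G) : J3 (a + a') b d = J3 a b d + J3 a' b d := by
  unfold J3
  simp only [add_mul, mul_add]
  abel

theorem J3_add2 (a b b' d : G) : J3 a (b + b') d = J3 a b d + J3 a b' d := by
  unfold J3
  simp only [add_mul, mul_add]
  abel

theorem J3_add3 (a b d d' : G) : J3 a b (d + d') = J3 a b d + J3 a b d' := by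
  unfold J3
  simp only [add_mul, mul_add]
  abel

theorem J3_prod (hG : E2 G) (a b d e : G) :
    J3 (a * b) d e = ((a * b) * d) * e + ((a * b) * e) * d + (a * b) * (d * e) := by
  unfold J3
  rw [hG.comm (d * e) (a * b), hG.comm e (a * b)]
  abel

theorem J3_S (hG : E2 G) (a b d e : G) :
    J3 (a * b) d e + J3 (d * e) a b = J3 (a * d) b e + J3 (b * e) a d := by
  apply hG.eq_of
  rw [J3_prod hG, J3_prod hG, J3_prod hG, J3_prod hG]
  have h1 := hG.full a b d e
  have h2 := hG.full e a b d
  rw [hG.comm e a, hG.comm e b, hG.comm e d] at h2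
  rw [hG.comm (d * e) (a * b), hG.comm (b * e) (a * d)]
  have t1 := hG.two ((a * b) * (d * e))
  have t2 := hG.two ((a * d) * (b * e))
  have t3 := hG.two (((a * e) * b) * d)
  have t4 := hG.two (((a * e) * d) * b)
  linear_combination (norm := abel) h1 + h2 + t1 + t2 - t3 - t4

theorem J3_thick (hG : E2 G) {c : G} (hc : Thick2 c) (g a b : G) : J3 (g * c) a b * c = 0 := by
  rw [J3_prod hG]
  simp only [add_mul]
  have h := hG.full (g * c) a b c
  rw [hc.cxc, hc.cxc, hc.cc] at h
  simp only [zero_mul, add_zero] at h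
  rw [hc.cxc, add_zero]
  exact h

theorem J3_thick_last (hG : E2 G) {c : G} (hc : Thick2 c) (a b : G) : J3 a b c * c = 0 := by
  unfold J3
  simp only [add_mul]
  rw [hc.cc, hG.comm c a, hc.cxc, hc.cxc]
  simp

/-- `(m t) c = 0` for `t` in the first two levels -/
theorem mt0 {c : G} (hG : E2 G) (hc : Thick2 c) (m g : G) : (m * (g * c)) * c = 0 := by
  rw [hG.comm m (g * c), hc.cxc]

theorem mt1 {c : G} (hG : E2 G) (hc : Thick2 c) {m : G} (hm : m * c = 0) (g a : G) :
    (m * ((g * c) * a)) * c = 0 := by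
  have h1 := hG.full m (g * c) a c
  have h2 := hG.full (g * c) m a c
  rw [mt0 hG hc, mt0 hG hc, hc.th, hm] at h1
  rw [hc.cxc, hc.cxc, hc.cc] at h2
  simp only [zero_mul, add_zero] at h1 h2
  rw [hG.comm (g * c) m, h1, zero_add] at h2
  rw [hG.comm m]
  exact h2

end jac

section weights
variable {G : Type v} [NonUnitalNonAssocRing G]

/-- Jacobians of total weight at most `N` are killed by `c`. -/
def JZ (c : G) (X : Set G) (N : ℕ) : Prop :=
  ∀ i j k a b d, Mon X i a → Mon X j b → Mon X k d → i + j + k ≤ N → J3 a b d * c = 0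

/-- words `(..((g c) a₁)..) aₖ` -/
inductive TW (c : G) (X : Set G) : ℕ → ℕ → G → Prop
  | base {i : ℕ} {g : G} : Mon X i g → TW c X 0 (i + 1) (g * c)
  | step {k w i : ℕ} {t a : G} : TW c X k w t → Mon X i a → TW c X (k + 1) (w + i) (t * a)

theorem TW.mon {c : G} {X : Set G} (hcX : c ∈ X) {k w : ℕ} {t : G} (h : TW c X k w t) :
    Mon X w t := by
  induction h with
  | base hg => exact hg.mul (Mon.gen hcX)
  | step _ ha ih => exact ih.mul ha

/-- the levels up to `k` are in the radical at weight `N` -/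
def RK (c : G) (X : Set G) (N k : ℕ) : Prop :=
  ∀ k' w t, k' ≤ k → TW c X k' w t → ∀ i j a b, Mon X i a → Mon X j b → w + i + j ≤ N →
    J3 t a b * c = 0

variable {c : G} {X : Set G} {N k : ℕ}

/-- symmetry -/
theorem phi_sym (hG : E2 G) (hR : RK c X N k) {w : ℕ} {t : G} (ht : TW c X k w t)
    {i j l : ℕ} {b d e : G} (hb : Mon X i b) (hd : Mon X j d) (he : Mon X l e)
    (hw : w + i + j + l ≤ N) : J3 (t * b) d e * c = J3 (t * d) b e * c := by
  have h := congrArg (fun z => z * c) (J3_S hG t b d e)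
  simp only [add_mul] at h
  have h1 : J3 (d * e) t b * c = 0 := by
    rw [J3_12 hG]
    exact hR k w t le_rfl ht _ _ _ _ (hd.mul he) hb (by omega)
  have h2 : J3 (b * e) t d * c = 0 := by
    rw [J3_12 hG]
    exact hR k w t le_rfl ht _ _ _ _ (hb.mul he) hd (by omega)
  rw [h1, h2, add_zero, add_zero] at h
  exact h

/-- the leaf identity with weights -/
theorem leafN (hG : E2 G) (hcX : c ∈ X) (hJ : JZ c X N) (hR : RK c X (N + 1) k) {w : ℕ} {t : G}
    (ht : TW c X k w t) {i j l m : ℕ} {b d e f : G} (hb : Mon X i b) (hd : Mon X j d)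
    (he : Mon X l e) (hf : Mon X m f) (hw : w + i + j + l + m ≤ N + 1) :
    J3 (t * (b * d)) e f * c + J3 (t * (e * f)) b d * c =
      ((J3 b d e * t) * c) * f + ((J3 b d f * t) * c) * e + ((J3 b e f * t) * c) * d
        + ((J3 d e f * t) * c) * b
        + (((b * d) * (e * f) + (b * e) * (d * f) + (b * f) * (d * e)) * t) * c := by
  have pt := (ht.mon hcX).pos
  have pb := hb.pos
  have pd := hd.pos
  have pe := he.pos
  have pf := hf.pos
  have mt := ht.mon hcX
  have R := fun (i j : ℕ) (a b : G) (ha : Mon X i a) (hb : Mon X j b) (h : w + i + j ≤ N + 1) =>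
    hR k w t le_rfl ht i j a b ha hb h
  refine leaf hG ?_ ?_ ?_ ?_ ?_ ?_ ?_ ?_ ?_ ?_ ?_ ?_ ?_ ?_
  · exact hJ _ _ _ _ _ _ hb (hd.mul he) hf (by omega)
  · exact hJ _ _ _ _ _ _ hd he hf (by omega)
  · exact hJ _ _ _ _ _ _ (hb.mul he) hd hf (by omega)
  · exact R _ _ _ _ hb (he.mul (hd.mul hf)) (by omega)
  · exact hJ _ _ _ _ _ _ hb (hd.mul mt) hf (by omega)
  · exact R _ _ _ _ hb (hf.mul (hd.mul he)) (by omega)
  · exact hJ _ _ _ _ _ _ hb he hf (by omega)
  · exact hJ _ _ _ _ _ _ hb (hd.mul he) mt (by omega)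
  · exact hJ _ _ _ _ _ _ hb hd mt (by omega)
  · exact R _ _ _ _ (hb.mul hd) (he.mul hf) (by omega)
  · exact hJ _ _ _ _ _ _ hb (hd.mul hf) mt (by omega)
  · exact R _ _ _ _ (he.mul (hb.mul hf)) hd (by omega)
  · exact R _ _ _ _ (hf.mul (hb.mul he)) hd (by omega)
  · exact hJ _ _ _ _ _ _ hb (hd.mul mt) he (by omega)

/-- the four-cycle relation -/
theorem cyc4 (hG : E2 G) (hcX : c ∈ X) (hJ : JZ c X N) (hR : RK c X (N + 1) k) {w : ℕ} {t : G}
    (ht : TW c X k w t) {i j l m : ℕ} {b d e f : G} (hb : Mon X i b) (hd : Mon X j d)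
    (he : Mon X l e) (hf : Mon X m f) (hw : w + i + j + l + m ≤ N + 1) :
    J3 (t * (b * d)) e f * c + J3 (t * (e * f)) b d * c + J3 (t * (b * e)) d f * c
      + J3 (t * (d * f)) b e * c = 0 := by
  have h1 := leafN hG hcX hJ hR ht hb hd he hf hw
  have h2 := leafN hG hcX hJ hR ht hb he hd hf (by omega)
  rw [add_assoc, h1, h2, J3_23 hG b e d, J3_12 hG e d f, hG.comm e d]
  have t1 := hG.two (((J3 b d e * t) * c) * f)
  have t2 := hG.two (((J3 b d f * t) * c) * e)
  have t3 := hG.two (((J3 b e f * t) * c) * d)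
  have t4 := hG.two (((J3 d e f * t) * c) * b)
  have t5 := hG.two ((((b * d) * (e * f) + (b * e) * (d * f) + (b * f) * (d * e)) * t) * c)
  simp only [add_mul] at t5 ⊢
  linear_combination (norm := abel) t1 + t2 + t3 + t4 + t5

/-- The first two levels. -/
theorem heart (hG : E2 G) (hcX : c ∈ X) (hJ : JZ c X N) (hR : RK c X (N + 1) k) {w : ℕ} {t : G}
    (ht : TW c X k w t) (hmt : ∀ m : G, m * c = 0 → (m * t) * c = 0)
    {i j l m : ℕ} {b d e f : G} (hb : Mon X i b) (hd : Mon X j d)
    (he : Mon X l e) (hf : Mon X m f) (hw : w + i + j + l + m ≤ N + 1) :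
    J3 (t * (b * d)) e f * c = J3 (t * (e * f)) b d * c := by
  have pt := (ht.mon hcX).pos
  have pb := hb.pos
  have pd := hd.pos
  have pe := he.pos
  have pf := hf.pos
  apply hG.eq_of
  rw [leafN hG hcX hJ hR ht hb hd he hf hw]
  have hQ : (b * d) * (e * f) + (b * e) * (d * f) + (b * f) * (d * e) =
      J3 (b * d) e f + J3 (b * e) d f + J3 (b * f) d e := by
    rw [J3_prod hG, J3_prod hG, J3_prod hG]
    have h := hG.full b d e f
    linear_combination (norm := abel) -h
  have q0 : ((b * d) * (e * f) + (b * e) * (d * f) + (b * f) * (d * e)) * c = 0 := by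
    rw [hQ, add_mul, add_mul, hJ _ _ _ _ _ _ (hb.mul hd) he hf (by omega),
      hJ _ _ _ _ _ _ (hb.mul he) hd hf (by omega), hJ _ _ _ _ _ _ (hb.mul hf) hd he (by omega)]
    simp
  rw [hmt _ (hJ _ _ _ _ _ _ hb hd he (by omega)), hmt _ (hJ _ _ _ _ _ _ hb hd hf (by omega)),
    hmt _ (hJ _ _ _ _ _ _ hb he hf (by omega)), hmt _ (hJ _ _ _ _ _ _ hd he hf (by omega)),
    hmt _ q0]
  simp

end weights

section steps
variable {G : Type v} [NonUnitalNonAssocRing G] {c : G} {Y : Set G} {N k : ℕ}

theorem J3_yyy (hG : E2 G) (hYY : ∀ x ∈ Y, ∀ y ∈ Y, x * y = 0) (t : G) {x y z : G}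
    (hx : x ∈ Y) (hy : y ∈ Y) (hz : z ∈ Y) : J3 (t * x) y z = 0 := by
  rw [J3_prod hG, hYY y hy z hz, mul_zero, add_zero, hG.vvv (hYY x hx y hy) (hYY x hx z hz),
    hG.two]

/-- words in the radical, first two levels -/
theorem step_word (hG : E2 G) (hc : Thick2 c) (hJ : JZ c (insert c Y) N)
    (hR : RK c (insert c Y) (N + 1) k) {w : ℕ} {t : G}
    (ht : TW c (insert c Y) k w t) (hmt : ∀ m : G, m * c = 0 → (m * t) * c = 0)
    {b0 : ℕ} {w0 : G} (hw0 : Mon (insert c Y) b0 w0) (p : List (ℕ × G)) :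
    MonL (insert c Y) p → ∀ j l b d, Mon (insert c Y) j b → Mon (insert c Y) l d →
      w + (b0 + 1 + wt p) + j + l ≤ N + 1 → J3 (t * act (w0 * c) p) b d * c = 0 := by
  have hcX : c ∈ insert c Y := Set.mem_insert _ _
  induction p using List.reverseRecOn with
  | nil =>
    intro _ j l b d hb hd hw
    rw [wt_nil'] at hw
    rw [act_nil, phi_sym hG hR ht (hw0.mul (Mon.gen hcX)) hb hd (by omega), J3_12 hG,
      J3_thick hG hc]
  | append_singleton p q ih =>
    intro hp j l b d hb hd hw
    have hq : Mon (insert c Y) q.1 q.2 := hp q (by simp)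
    have hp' : MonL (insert c Y) p := fun r hr => hp r (by simp [hr])
    rw [wt_append, wt_cons, wt_nil'] at hw
    have hA : Mon (insert c Y) (b0 + 1 + wt p) (act (w0 * c) p) :=
      mon_act hp' (hw0.mul (Mon.gen hcX))
    rw [act_append, act_cons, act_nil]
    rw [heart hG hcX hJ hR ht hmt hA hq hb hd (by omega),
      phi_sym hG hR ht (hb.mul hd) hA hq (by omega)]
    exact ih hp' _ _ _ _ (hb.mul hd) hq (by omega)

theorem step_small (hG : E2 G) (hc : Thick2 c) (hYY : ∀ x ∈ Y, ∀ y ∈ Y, x * y = 0)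
    (hJ : JZ c (insert c Y) N) (hR : RK c (insert c Y) (N + 1) k) {w : ℕ} {t : G}
    (ht : TW c (insert c Y) k w t) (hmt : ∀ m : G, m * c = 0 → (m * t) * c = 0)
    {i j l : ℕ} {a b d : G} (ha : Mon (insert c Y) i a) (hb : Mon (insert c Y) j b)
    (hd : Mon (insert c Y) l d) (hw : w + i + j + l ≤ N + 1) : J3 (t * a) b d * c = 0 := by
  rcases mon_shape hG hYY ha with rfl | rfl | haY | ⟨b0, w0, p, hw0, hp, hle, rfl⟩
  · rw [mul_zero]
    unfold J3
    simp
  · exact J3_thick hG hc _ _ _
  · rcases mon_shape hG hYY hb with rfl | rfl | hbY | ⟨b0, w0, p, hw0, hp, hle, rfl⟩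
    · unfold J3
      simp
    · rw [J3_23 hG, J3_thick_last hG hc]
    · rcases mon_shape hG hYY hd with rfl | rfl | hdY | ⟨b0, w0, p, hw0, hp, hle, rfl⟩
      · unfold J3
        simp
      · rw [J3_thick_last hG hc]
      · rw [J3_yyy hG hYY t haY hbY hdY, zero_mul]
      · rw [J3_23 hG, phi_sym hG hR ht ha hd hb (by omega)]
        exact step_word hG hc hJ hR ht hmt hw0 p hp _ _ _ _ ha hb (by omega)
    · rw [phi_sym hG hR ht ha hb hd (by omega)]
      exact step_word hG hc hJ hR ht hmt hw0 p hp _ _ _ _ ha hd (by omega)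
  · exact step_word hG hc hJ hR ht hmt hw0 p hp _ _ _ _ hb hd (by omega)

theorem E2.split (hG : E2 G) (t z x a : G) :
    ((t * z) * x) * a + ((t * z) * a) * x =
      ((t * (z * x)) * a + t * ((z * x) * a)) + ((t * (z * a)) * x + t * ((z * a) * x)) := by
  apply hG.eq_of
  have h := hG.full z t x a
  rw [hG.comm z t, hG.comm (z * x) t, hG.comm (z * a) t, hG.comm ((z * x) * a) t,
    hG.comm ((z * a) * x) t] at h
  linear_combination (norm := abel) h

/-- exchange of two letters behind a letter -/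
theorem exch5 (hG : E2 G) {X : Set G} {w w' i j l : ℕ} {t z x a : G}
    (hT : ∀ i m, Mon X i m → TW c X k (w' + i) (t * m)) (hz : Mon X w z)
    (hx : Mon X i x) (ha : Mon X j a) (hR : RK c X N (k + 2)) {m n : ℕ} {b d e : G}
    (hb : Mon X l b) (hd : Mon X m d) (he : Mon X n e) (hw : w' + w + i + j + l + m + n ≤ N) :
    J3 ((((t * z) * x) * a) * b) d e * c = J3 ((((t * z) * a) * x) * b) d e * c := by
  apply hG.eq_of
  have e1 := congrArg (fun s => J3 (s * b) d e * c) (hG.split t z x a)
  simp only [add_mul, J3_add] at e1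
  rw [e1]
  have r1 := hR (k + 2) _ _ le_rfl (((hT _ _ (hz.mul hx)).step ha).step hb) _ _ _ _ hd he
    (by omega)
  have r2 := hR (k + 1) _ _ (by omega) ((hT _ _ ((hz.mul hx).mul ha)).step hb) _ _ _ _ hd he
    (by omega)
  have r3 := hR (k + 2) _ _ le_rfl (((hT _ _ (hz.mul ha)).step hx).step hb) _ _ _ _ hd he
    (by omega)
  have r4 := hR (k + 1) _ _ (by omega) ((hT _ _ ((hz.mul ha).mul hx)).step hb) _ _ _ _ hd he
    (by omega)
  rw [r1, r2, r3, r4]
  simp

/-- exchange one position later -/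
theorem exch5' (hG : E2 G) {X : Set G} {w i j l : ℕ} {t x a b : G}
    (ht : TW c X k w t)
    (hx : Mon X i x) (ha : Mon X j a) (hR : RK c X N (k + 2)) {m n : ℕ} {d e : G}
    (hb : Mon X l b) (hd : Mon X m d) (he : Mon X n e) (hw : w + i + j + l + m + n ≤ N) :
    J3 (((t * x) * a) * b) d e * c = J3 (((t * x) * b) * a) d e * c := by
  apply hG.eq_of
  have e1 := congrArg (fun s => J3 s d e * c) (hG.split t x a b)
  simp only [add_mul, J3_add] at e1
  rw [e1]
  have r1 := hR (k + 2) _ _ le_rfl ((ht.step (hx.mul ha)).step hb) _ _ _ _ hd he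
    (by omega)
  have r2 := hR (k + 1) _ _ (by omega) (ht.step ((hx.mul ha).mul hb)) _ _ _ _ hd he
    (by omega)
  have r3 := hR (k + 2) _ _ le_rfl ((ht.step (hx.mul hb)).step ha) _ _ _ _ hd he
    (by omega)
  have r4 := hR (k + 1) _ _ (by omega) (ht.step ((hx.mul hb).mul ha)) _ _ _ _ hd he
    (by omega)
  rw [r1, r2, r3, r4]
  simp

/-- the symmetric function -/
def g5 (c t : G) : List (ℕ × G) → G
  | [x, a, b, d, e] => J3 (((t * x.2) * a.2) * b.2) d.2 e.2 * c
  | _ => 0

theorem five_g5 (hG : E2 G) (hc : Thick2 c) (hYY : ∀ x ∈ Y, ∀ y ∈ Y, x * y = 0)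
    (hJ : JZ c (insert c Y) N) (hR : RK c (insert c Y) (N + 1) (k + 2)) {w M : ℕ} {t : G}
    (ht : TW c (insert c Y) k w t) (hM : w + M ≤ N + 1) : Five c Y M (g5 c t) := by
  have hcX : c ∈ insert c Y := Set.mem_insert _ _
  refine ⟨?_, ?_, ?_, ?_, ?_⟩
  · intro l1 p q l2 hlen hmon hwt
    rcases l1 with _ | ⟨x, _ | ⟨a, _ | ⟨b, _ | ⟨y, l1⟩⟩⟩⟩
    · rcases l2 with _ | ⟨b, _ | ⟨d, _ | ⟨e, _ | ⟨y, l2⟩⟩⟩⟩
      · simp at hlen
      · simp at hlen
      · simp at hlen
      · change J3 (((t * p.2) * q.2) * b.2) d.2 e.2 * c = J3 (((t * q.2) * p.2) * b.2) d.2 e.2 * c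
        change MonL _ [p, q, b, d, e] at hmon
        change wt [p, q, b, d, e] ≤ M at hwt
        rw [wt5] at hwt
        have hp := hmon p (by simp)
        have hq := hmon q (by simp)
        have hb := hmon b (by simp)
        have hd := hmon d (by simp)
        have he := hmon e (by simp)
        cases ht with
        | base hg =>
          rename_i i g
          rw [hG.comm g c]
          refine exch5 (w' := 1) hG ?_ hg hp hq hR hb hd he (by omega)
          intro i m hm
          rw [hG.comm c m, add_comm 1 i]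
          exact TW.base hm
        | step ht' hz =>
          rename_i k' w' i t' z
          exact exch5 (w' := w') hG (fun i m hm => ht'.step hm) hz hp hq hR hb hd he (by omega)
      · simp at hlen
    · rcases l2 with _ | ⟨d, _ | ⟨e, _ | ⟨y, l2⟩⟩⟩
      · simp at hlen
      · simp at hlen
      · change J3 (((t * x.2) * p.2) * q.2) d.2 e.2 * c = J3 (((t * x.2) * q.2) * p.2) d.2 e.2 * c
        change MonL _ [x, p, q, d, e] at hmon
        change wt [x, p, q, d, e] ≤ M at hwt
        rw [wt5] at hwt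
        exact exch5' hG ht (hmon x (by simp)) (hmon p (by simp)) hR (hmon q (by simp))
          (hmon d (by simp)) (hmon e (by simp)) (by omega)
      · simp at hlen
    · rcases l2 with _ | ⟨e, _ | ⟨y, l2⟩⟩
      · simp at hlen
      · change J3 (((t * x.2) * a.2) * p.2) q.2 e.2 * c = J3 (((t * x.2) * a.2) * q.2) p.2 e.2 * c
        change MonL _ [x, a, p, q, e] at hmon
        change wt [x, a, p, q, e] ≤ M at hwt
        rw [wt5] at hwt
        exact phi_sym hG hR ((ht.step (hmon x (by simp))).step (hmon a (by simp)))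
          (hmon p (by simp)) (hmon q (by simp)) (hmon e (by simp)) (by omega)
      · simp at hlen
    · rcases l2 with _ | ⟨y, l2⟩
      · change J3 (((t * x.2) * a.2) * b.2) p.2 q.2 * c = J3 (((t * x.2) * a.2) * b.2) q.2 p.2 * c
        rw [J3_23 hG]
      · simp at hlen
    · simp only [List.length_append, List.length_cons] at hlen
      omega
  · intro x a b d e f hmon hwt
    rw [wt6] at hwt
    exact cyc4 hG hcX hJ hR ((ht.step (hmon x (by simp))).step (hmon a (by simp)))
      (hmon b (by simp)) (hmon d (by simp)) (hmon e (by simp)) (hmon f (by simp)) (by omega)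
  · intro x a b d n
    exact J3_thick_last hG hc _ _
  · intro x a b d n
    change J3 (((t * x.2) * a.2) * 0) b.2 d.2 * c = 0
    unfold J3
    simp
  · intro b y1 y2 y3 y4 h1 h2 h3 h4
    change J3 (((t * b.2) * y1) * y2) y3 y4 * c = 0
    rw [J3_yyy hG hYY _ h2 h3 h4, zero_mul]

/-- all levels -/
theorem rk_all (hG : E2 G) (hc : Thick2 c) (hYY : ∀ x ∈ Y, ∀ y ∈ Y, x * y = 0)
    (hJ : JZ c (insert c Y) N) : ∀ k, RK c (insert c Y) (N + 1) k := by
  have hcX : c ∈ insert c Y := Set.mem_insert _ _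
  have r0 : RK c (insert c Y) (N + 1) 0 := by
    intro k' w t hk ht i j a b ha hb hw
    have : k' = 0 := by omega
    subst this
    cases ht with
    | base hg => exact J3_thick hG hc _ _ _
  have r1 : RK c (insert c Y) (N + 1) 1 := by
    intro k' w t hk ht i j a b ha hb hw
    rcases Nat.lt_or_ge k' 1 with h | h
    · exact r0 k' w t (by omega) ht i j a b ha hb hw
    · have : k' = 1 := by omega
      subst this
      cases ht with
      | step ht' hz =>
        rename_i w' i' t' z
        refine step_small hG hc hYY hJ r0 ht' ?_ hz ha hb (by omega)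
        intro m _
        cases ht' with
        | base hg => exact mt0 hG hc m _
  have r2 : RK c (insert c Y) (N + 1) 2 := by
    intro k' w t hk ht i j a b ha hb hw
    rcases Nat.lt_or_ge k' 2 with h | h
    · exact r1 k' w t (by omega) ht i j a b ha hb hw
    · have : k' = 2 := by omega
      subst this
      cases ht with
      | step ht' hz =>
        rename_i w' i' t' z
        refine step_small hG hc hYY hJ r1 ht' ?_ hz ha hb (by omega)
        intro m hm
        cases ht' with
        | step ht'' hz' =>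
          cases ht'' with
          | base hg => exact mt1 hG hc hm _ _
  have main : ∀ k, RK c (insert c Y) (N + 1) (k + 2) := by
    intro k
    induction k with
    | zero => exact r2
    | succ k ih =>
      intro k' w t hk ht i j a b ha hb hw
      rcases Nat.lt_or_ge k' (k + 3) with h | h
      · exact ih k' w t (by omega) ht i j a b ha hb hw
      · have : k' = k + 3 := by omega
        subst this
        cases ht with
        | step ht1 h1 =>
          cases ht1 with
          | step ht2 h2 =>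
            cases ht2 with
            | step ht3 h3 =>
              rename_i i1 a1 i2 a2 w3 i3 t3 a3
              have hF := five_g5 (M := N + 1 - w3) hG hc hYY hJ ih ht3 (by omega)
              have hz := hF.zero hG.two hYY (a := (i3, a3)) (b := (i2, a2)) (d := (i1, a1))
                (e := (i, a)) (f := (j, b)) h3 h2 h1 ha hb (by
                  rw [wt5]; change i3 + i2 + i1 + i + j ≤ N + 1 - w3; omega)
              exact hz
  intro k
  intro k' w t hk ht i j a b ha hb hw
  exact main k k' w t (by omega) ht i j a b ha hb hw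

theorem tw_act {X : Set G} {p : List (ℕ × G)} (hp : MonL X p) :
    ∀ {k w : ℕ} {t : G}, TW c X k w t → TW c X (k + p.length) (w + wt p) (act t p) := by
  induction p with
  | nil => intro k w t ht; simpa [wt, act_nil] using ht
  | cons q p ih =>
    intro k w t ht
    have hq : Mon X q.1 q.2 := hp q (by simp)
    have := ih (fun r hr => hp r (by simp [hr])) (ht.step hq)
    rw [act_cons, wt_cons, List.length_cons]
    have e1 : k + (p.length + 1) = k + 1 + p.length := by omega
    have e2 : w + (q.1 + wt p) = w + q.1 + wt p := by omega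
    rw [e1, e2]
    exact this

theorem jz_all (hG : E2 G) (hc : Thick2 c) (hYY : ∀ x ∈ Y, ∀ y ∈ Y, x * y = 0) :
    ∀ N, JZ c (insert c Y) N := by
  intro N
  induction N with
  | zero =>
    intro i j k a b d ha hb hd hw
    have := ha.pos
    omega
  | succ N ih =>
    intro i j k a b d ha hb hd hw
    have hR := rk_all hG hc hYY ih
    have T : ∀ (i j k : ℕ) (a b : G) (b0 : ℕ) (w0 : G) (p : List (ℕ × G)),
        Mon (insert c Y) i a → Mon (insert c Y) j b → Mon (insert c Y) b0 w0 →
        MonL (insert c Y) p → b0 + 1 + wt p ≤ k → k + i + j ≤ N + 1 →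
        J3 (act (w0 * c) p) a b * c = 0 := by
      intro i j k a b b0 w0 p ha hb hw0 hp hle hw
      exact hR _ _ _ _ le_rfl (tw_act hp (TW.base hw0)) _ _ _ _ ha hb (by omega)
    rcases mon_shape hG hYY ha with rfl | rfl | haY | ⟨b0, w0, p, hw0, hp, hle, rfl⟩
    · unfold J3
      simp
    · rw [J3_13 hG, J3_thick_last hG hc]
    · rcases mon_shape hG hYY hb with rfl | rfl | hbY | ⟨b0, w0, p, hw0, hp, hle, rfl⟩
      · unfold J3
        simp
      · rw [J3_23 hG, J3_thick_last hG hc]
      · rcases mon_shape hG hYY hd with rfl | rfl | hdY | ⟨b0, w0, p, hw0, hp, hle, rfl⟩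
        · unfold J3
          simp
        · rw [J3_thick_last hG hc]
        · unfold J3
          rw [hYY a haY b hbY, hYY b hbY d hdY, hYY d hdY a haY]
          simp
        · rw [J3_13 hG]
          exact T _ _ _ _ _ _ _ _ hb ha hw0 hp hle (by omega)
      · rw [J3_12 hG]
        exact T _ _ _ _ _ _ _ _ ha hd hw0 hp hle (by omega)
    · exact T _ _ _ _ _ _ _ _ hb hd hw0 hp hle (by omega)

variable {F : Type u} [Field F] [Module F G] [IsScalarTower F G G] [SMulCommClass F G G]

/-- All Jacobians are killed by `c`. -/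
theorem jac_c (hG : E2 G) (hc : Thick2 c) (hYY : ∀ x ∈ Y, ∀ y ∈ Y, x * y = 0)
    (hX : mspan F (insert c Y) 1 = ⊤) (a b d : G) : J3 a b d * c = 0 := by
  have hm : ∀ x : G, x ∈ Submodule.span F {w | ∃ m, 1 ≤ m ∧ Mon (insert c Y) m w} := by
    intro x
    have : x ∈ mspan F (insert c Y) 1 := by rw [hX]; trivial
    exact this
  have z1 : ∀ b d : G, J3 0 b d = 0 := fun b d => by unfold J3; simp
  have s1 : ∀ (r : F) (a b d : G), J3 (r • a) b d = r • J3 a b d := by
    intro r a b d
    unfold J3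
    simp only [smul_mul_assoc, mul_smul_comm, smul_add]
  have k1 : ∀ a b d : G, (∃ m, Mon (insert c Y) m a) → (∃ m, Mon (insert c Y) m b) →
      (∃ m, Mon (insert c Y) m d) → J3 a b d * c = 0 := by
    rintro a b d ⟨i, ha⟩ ⟨j, hb⟩ ⟨k, hd⟩
    exact jz_all hG hc hYY (i + j + k) i j k a b d ha hb hd le_rfl
  have k2 : ∀ a b d : G, (∃ m, Mon (insert c Y) m b) →
      (∃ m, Mon (insert c Y) m d) → J3 a b d * c = 0 := by
    intro a b d hb hd
    induction hm a using Submodule.span_induction with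
    | mem x hx =>
      obtain ⟨m, _, hx⟩ := hx
      exact k1 x b d ⟨m, hx⟩ hb hd
    | zero => rw [z1, zero_mul]
    | add x y _ _ h1 h2 => rw [J3_add, add_mul, h1, h2, add_zero]
    | smul r x _ h1 => rw [s1, smul_mul_assoc, h1, smul_zero]
  have k3 : ∀ a b d : G, (∃ m, Mon (insert c Y) m d) → J3 a b d * c = 0 := by
    intro a b d hd
    rw [J3_12 hG]
    induction hm b using Submodule.span_induction with
    | mem x hx =>
      obtain ⟨m, _, hx⟩ := hx
      rw [J3_12 hG]
      exact k2 a x d ⟨m, hx⟩ hd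
    | zero => rw [z1, zero_mul]
    | add x y _ _ h1 h2 => rw [J3_add, add_mul, h1, h2, add_zero]
    | smul r x _ h1 => rw [s1, smul_mul_assoc, h1, smul_zero]
  rw [J3_13 hG]
  induction hm d using Submodule.span_induction with
  | mem x hx =>
    obtain ⟨m, _, hx⟩ := hx
    rw [J3_13 hG]
    exact k3 a b x ⟨m, hx⟩
  | zero => rw [z1, zero_mul]
  | add x y _ _ h1 h2 => rw [J3_add, add_mul, h1, h2, add_zero]
  | smul r x _ h1 => rw [s1, smul_mul_assoc, h1, smul_zero]

/-- C0 -/
theorem c0 (hG : E2 G) (hc : Thick2 c) (hYY : ∀ x ∈ Y, ∀ y ∈ Y, x * y = 0)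
    (hX : mspan F (insert c Y) 1 = ⊤) (u : G) {x y : G} (hxy : x * y = 0) :
    ((u * x) * y) * c = ((u * y) * x) * c := by
  have h := jac_c (F := F) hG hc hYY hX u x y
  unfold J3 at h
  rw [hxy, zero_mul, add_zero, hG.comm y u, add_mul] at h
  exact hG.eq_of h

end steps

end Pool.Agent.H86.Eng2
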