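import Pool.Agent.H66.F2.Core
import Pool.Agent.H86.Eng2.Weight

set_option autoImplicit false

/-!
# The leaf identity for Jacobians (MP_1664c7_al, characteristic two; generated)
-/

namespace Pool.Agent.H86.Eng2

open Pool.Agent.H66.F2
open Pool.Agent.H12.Eng (Ex val uf)

/-- The Jacobian. -/
def J3 {A : Type*} [NonUnitalNonAssocRing A] (a b d : A) : A :=
  (a * b) * d + (b * d) * a + (d * a) * b

/-- formal Jacobian -/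
def jx (a b d : Ex) : List Ex := [.m (.m a b) d, .m (.m b d) a, .m (.m d a) b]

/-- right multiplication of a sum -/
def rx : List Ex → Ex → List Ex
  | [], _ => []
  | x :: l, e => .m x e :: rx l e

section
variable {A : Type*} [NonUnitalNonAssocRing A]

theorem evS_append (u : ℕ → A) (l l' : List Ex) : evS u (l ++ l') = evS u l + evS u l' := by
  induction l with
  | nil => change evS u l' = 0 + evS u l'; rw [zero_add]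
  | cons x l ih =>
    change val u x + evS u (l ++ l') = (val u x + evS u l) + evS u l'
    rw [ih, add_assoc]

theorem evS_rx (u : ℕ → A) (l : List Ex) (e : Ex) : evS u (rx l e) = evS u l * val u e := by
  induction l with
  | nil => change (0 : A) = 0 * _; rw [zero_mul]
  | cons x l ih =>
    change val u x * val u e + evS u (rx l e) = (val u x + evS u l) * val u e
    rw [ih, add_mul]

theorem evS_jx (u : ℕ → A) (a b d : Ex) :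
    evS u (jx a b d) = J3 (val u a) (val u b) (val u d) := by
  change _ + (_ + (_ + 0)) = _
  unfold J3
  rw [add_zero, add_assoc]
  rfl

/-- blocks -/
def fl : List (List Ex) → List Ex
  | [] => []
  | l :: t => l ++ fl t

theorem evS_fl (u : ℕ → A) (L : List (List Ex)) (h : ∀ l ∈ L, evS u l = 0) :
    evS u (fl L) = 0 := by
  induction L with
  | nil => rfl
  | cons l t ih =>
    change evS u (l ++ fl t) = 0
    rw [evS_append, h l (by simp), ih (fun l hl => h l (by simp [hl])), add_zero]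

end

/-- the Engel identity -/
def dF : List Ex := [(.m (.m (.m (.v 3) (.v 0)) (.v 1)) (.v 2)),
  (.m (.m (.m (.v 3) (.v 0)) (.v 2)) (.v 1)),
  (.m (.m (.m (.v 3) (.v 1)) (.v 0)) (.v 2)),
  (.m (.m (.m (.v 3) (.v 1)) (.v 2)) (.v 0)),
  (.m (.m (.m (.v 3) (.v 2)) (.v 0)) (.v 1)),
  (.m (.m (.m (.v 3) (.v 2)) (.v 1)) (.v 0))]

def stL : ℕ → List Ex
  | _ => dF

def tL : List Ex :=
  (rx (jx (.m (.v 0) (.m (.v 1) (.v 2))) (.v 3) (.v 4)) (.v 5)) ++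
  ((rx (jx (.m (.v 0) (.m (.v 3) (.v 4))) (.v 1) (.v 2)) (.v 5)) ++
  ((rx (rx (rx (jx (.v 1) (.v 2) (.v 3)) (.v 0)) (.v 5)) (.v 4)) ++
  ((rx (rx (rx (jx (.v 1) (.v 2) (.v 4)) (.v 0)) (.v 5)) (.v 3)) ++
  ((rx (rx (rx (jx (.v 1) (.v 3) (.v 4)) (.v 0)) (.v 5)) (.v 2)) ++
  ((rx (rx (rx (jx (.v 2) (.v 3) (.v 4)) (.v 0)) (.v 5)) (.v 1)) ++
  ((rx (rx [(.m (.m (.v 1) (.v 2)) (.m (.v 3) (.v 4))), (.m (.m (.v 1) (.v 3)) (.m (.v 2) (.v 4))), (.m (.m (.v 1) (.v 4)) (.m (.v 2) (.v 3)))] (.v 0)) (.v 5))))))))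

def hL : List (List Ex) := [(rx (rx (jx (.v 1) (.m (.v 2) (.v 3)) (.v 4)) (.v 5)) (.v 0)),
  (rx (rx (rx (jx (.v 2) (.v 3) (.v 4)) (.v 5)) (.v 0)) (.v 1)),
  (rx (rx (jx (.m (.v 1) (.v 3)) (.v 2) (.v 4)) (.v 5)) (.v 0)),
  (rx (jx (.v 0) (.v 1) (.m (.v 3) (.m (.v 2) (.v 4)))) (.v 5)),
  (rx (rx (jx (.v 1) (.m (.v 2) (.v 0)) (.v 4)) (.v 5)) (.v 3)),
  (rx (jx (.v 0) (.v 1) (.m (.v 4) (.m (.v 2) (.v 3)))) (.v 5)),
  (rx (rx (rx (jx (.v 1) (.v 3) (.v 4)) (.v 5)) (.v 0)) (.v 2)),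
  (rx (rx (jx (.v 1) (.m (.v 2) (.v 3)) (.v 0)) (.v 5)) (.v 4)),
  (rx (rx (rx (jx (.v 1) (.v 2) (.v 0)) (.v 5)) (.v 4)) (.v 3)),
  (rx (jx (.v 0) (.m (.v 1) (.v 2)) (.m (.v 3) (.v 4))) (.v 5)),
  (rx (rx (jx (.v 1) (.m (.v 2) (.v 4)) (.v 0)) (.v 5)) (.v 3)),
  (rx (jx (.v 0) (.m (.v 3) (.m (.v 1) (.v 4))) (.v 2)) (.v 5)),
  (rx (rx (rx (jx (.v 1) (.v 2) (.v 0)) (.v 5)) (.v 3)) (.v 4)),
  (rx (rx (rx (jx (.v 2) (.v 3) (.v 4)) (.v 5)) (.v 1)) (.v 0)),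
  (rx (jx (.v 0) (.m (.v 4) (.m (.v 1) (.v 3))) (.v 2)) (.v 5)),
  (rx (rx (jx (.v 1) (.m (.v 2) (.v 0)) (.v 3)) (.v 5)) (.v 4)),
  (rx (rx (rx (jx (.v 1) (.v 3) (.v 4)) (.v 5)) (.v 2)) (.v 0))]

def cL : List It := [⟨0, 37563, 10, 2, 6, 2, 2, []⟩,
  ⟨0, 4, 8, 2, 6, 2, 2, [10, 12]⟩,
  ⟨0, 12, 77, 8, 4, 2, 2, [10]⟩,
  ⟨0, 12, 6, 2, 87379, 2, 2, []⟩,
  ⟨0, 12, 11875, 10, 4, 2, 2, []⟩,
  ⟨0, 12, 10, 2, 39771, 2, 2, []⟩,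
  ⟨0, 12, 11879, 8, 4, 2, 2, []⟩,
  ⟨0, 12, 6, 8, 4, 2, 2, [10, 2]⟩,
  ⟨0, 12, 8, 2, 13143, 2, 2, []⟩,
  ⟨0, 12, 10, 2, 13139, 2, 2, []⟩,
  ⟨0, 12, 6, 2, 94187, 2, 2, []⟩,
  ⟨0, 2763, 8, 10, 6, 2, 2, []⟩,
  ⟨0, 12, 8, 2, 87375, 2, 2, []⟩,
  ⟨0, 12, 39767, 10, 4, 2, 2, []⟩,
  ⟨0, 12, 6, 2, 37559, 2, 2, []⟩,
  ⟨0, 12, 90743, 8, 4, 2, 2, []⟩,
  ⟨0, 12, 10, 2, 37551, 2, 2, []⟩,
  ⟨0, 176439, 8, 2, 6, 2, 2, []⟩,
  ⟨0, 12, 213, 2, 4, 2, 2, [8]⟩,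
  ⟨0, 12, 213, 8, 4, 2, 2, [2]⟩,
  ⟨0, 176423, 8, 10, 6, 2, 2, []⟩,
  ⟨0, 8, 10, 2, 13147, 2, 2, []⟩,
  ⟨0, 4, 6, 8, 10, 2, 2, [12, 2]⟩,
  ⟨0, 12, 6, 8, 4, 2, 2, [2, 10]⟩,
  ⟨0, 297, 8, 2, 6, 2, 2, [10]⟩,
  ⟨0, 137, 10, 2, 6, 2, 2, [12]⟩,
  ⟨0, 12, 6, 2, 4, 2, 2, [10, 8]⟩,
  ⟨0, 4, 90755, 2, 12, 2, 2, []⟩,
  ⟨0, 176435, 10, 2, 6, 2, 2, []⟩,
  ⟨0, 4, 12, 2, 94191, 2, 2, []⟩,
  ⟨0, 4, 12, 39783, 2, 2, 2, []⟩,
  ⟨0, 12, 8, 2, 90747, 2, 2, []⟩,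
  ⟨0, 12, 6, 10, 4, 2, 2, [2, 8]⟩,
  ⟨0, 4, 8, 10, 6, 2, 2, [2, 12]⟩,
  ⟨0, 4, 10, 2, 6, 2, 2, [8, 12]⟩,
  ⟨0, 4, 39783, 2, 12, 2, 2, []⟩,
  ⟨0, 12, 141, 10, 4, 2, 2, [2]⟩,
  ⟨0, 4, 12, 90755, 2, 2, 2, []⟩,
  ⟨0, 4, 8, 10, 6, 2, 2, [12, 2]⟩,
  ⟨0, 12, 77, 10, 4, 2, 2, [8]⟩,
  ⟨0, 297, 10, 2, 6, 2, 2, [8]⟩,
  ⟨0, 12, 141, 2, 4, 2, 2, [10]⟩,
  ⟨0, 77, 8, 10, 4, 2, 2, [12]⟩,
  ⟨0, 4, 6, 2, 217, 2, 2, [12]⟩,
  ⟨0, 87387, 8, 2, 6, 2, 2, []⟩,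
  ⟨0, 12, 6, 10, 4, 2, 2, [8, 2]⟩,
  ⟨0, 297, 8, 10, 6, 2, 2, [2]⟩,
  ⟨0, 12, 6, 2, 4, 2, 2, [8, 10]⟩,
  ⟨0, 209, 8, 2, 6, 2, 2, [12]⟩]

set_option maxRecDepth 1000000 in
theorem kL : chk stL (tL ++ fl hL) cL = true := by decide +kernel

section
variable {A : Type*} [NonUnitalNonAssocRing A]

theorem vdF (hA : E2 A) : Valid A dF := by
  intro a b d e _ _
  have h := hA.full e a b d
  simp only [dF, evS, val, uf]
  linear_combination (norm := abel) h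

theorem vL (hA : E2 A) : Valid A (tL ++ fl hL) :=
  chk_sound ⟨hA.two, hA.sq⟩ stL (fun _ => vdF hA) _ _ kL

/-- The leaf identity. -/
theorem leaf (hA : E2 A) {t b d e f c : A}
    (h0 : J3 b (d * e) f * c = 0)
    (h1 : J3 d e f * c = 0)
    (h2 : J3 (b * e) d f * c = 0)
    (h3 : J3 t b (e * (d * f)) * c = 0)
    (h4 : J3 b (d * t) f * c = 0)
    (h5 : J3 t b (f * (d * e)) * c = 0)
    (h6 : J3 b e f * c = 0)
    (h7 : J3 b (d * e) t * c = 0)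
    (h8 : J3 b d t * c = 0)
    (h9 : J3 t (b * d) (e * f) * c = 0)
    (h10 : J3 b (d * f) t * c = 0)
    (h11 : J3 t (e * (b * f)) d * c = 0)
    (h12 : J3 t (f * (b * e)) d * c = 0)
    (h13 : J3 b (d * t) e * c = 0) :
    J3 (t * (b * d)) e f * c + J3 (t * (e * f)) b d * c =
      ((J3 b d e * t) * c) * f + ((J3 b d f * t) * c) * e + ((J3 b e f * t) * c) * d
        + ((J3 d e f * t) * c) * b
        + (((b * d) * (e * f) + (b * e) * (d * f) + (b * f) * (d * e)) * t) * c := by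
  have h := vL hA t b d e f c
  rw [evS_append, evS_fl] at h
  · rw [add_zero] at h
    unfold tL at h
    simp only [evS_append, evS_rx, evS_jx, val, uf] at h
    apply hA.eq_of
    simp only [evS, val, uf] at h
    linear_combination (norm := abel) h
  · intro l hl
    simp only [hL, List.mem_cons, List.not_mem_nil, or_false] at hl
    rcases hl with rfl | rfl | rfl | rfl | rfl | rfl | rfl | rfl | rfl | rfl | rfl | rfl | rfl | rfl | rfl | rfl | rfl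

    · simp only [evS_rx, evS_jx, val, uf, h0, zero_mul]
    · simp only [evS_rx, evS_jx, val, uf, h1, zero_mul]
    · simp only [evS_rx, evS_jx, val, uf, h2, zero_mul]
    · simp only [evS_rx, evS_jx, val, uf, h3, zero_mul]
    · simp only [evS_rx, evS_jx, val, uf, h4, zero_mul]
    · simp only [evS_rx, evS_jx, val, uf, h5, zero_mul]
    · simp only [evS_rx, evS_jx, val, uf, h6, zero_mul]
    · simp only [evS_rx, evS_jx, val, uf, h7, zero_mul]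
    · simp only [evS_rx, evS_jx, val, uf, h8, zero_mul]
    · simp only [evS_rx, evS_jx, val, uf, h9, zero_mul]
    · simp only [evS_rx, evS_jx, val, uf, h10, zero_mul]
    · simp only [evS_rx, evS_jx, val, uf, h11, zero_mul]
    · simp only [evS_rx, evS_jx, val, uf, h8, zero_mul]
    · simp only [evS_rx, evS_jx, val, uf, h1, zero_mul]
    · simp only [evS_rx, evS_jx, val, uf, h12, zero_mul]
    · simp only [evS_rx, evS_jx, val, uf, h13, zero_mul]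
    · simp only [evS_rx, evS_jx, val, uf, h6, zero_mul]

end

end Pool.Agent.H86.Eng2
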